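import Mathlib

set_option autoImplicit false
open MeasureTheory Set

namespace Pool.Agent.H224Z.Cake

/-- small parts of the values of the twelve islands -/
def u (i : Fin 3) (j : ℕ) : ℕ :=
  (![[1, 16, 23, 26, 4, 10, 12, 19, 9], [1, 16, 22, 26, 4, 9, 13, 20, 9],
    [1, 15, 23, 25, 4, 10, 13, 20, 9]] i).getD j 0

def v (i : Fin 3) (j : ℕ) : ℕ := 200 + u i j

/-- the maximin partitions -/
def P (i p : Fin 3) (l : Fin 4) : ℕ :=
  ![![![0, 1, 2, 9], ![3, 4, 5, 10], ![6, 7, 8, 11]],
    ![![0, 3, 6, 9], ![1, 4, 7, 10], ![2, 5, 8, 11]],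
    ![![1, 3, 9, 10], ![2, 4, 6, 11], ![0, 5, 7, 8]]] i p l

theorem P_lt : ∀ i p l, P i p l < 12 := by decide

theorem P_inj : ∀ i p l p' l', P i p l = P i p' l' → p = p' ∧ l = l' := by decide

theorem P_sum : ∀ i p, ∑ l, v i (P i p l) = 840 := by decide

theorem u_le (i : Fin 3) (j : ℕ) : u i j ≤ 26 := by
  by_cases h : j < 9
  · have : ∀ i : Fin 3, ∀ j < 9, u i j ≤ 26 := by decide
    exact this i j h
  · have : u i j = 0 := by
      unfold u
      rw [List.getD_eq_default]
      fin_cases i <;> simp <;> omega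
    omega

def sc (i : Fin 3) (j : ℕ) (x : Fin 3) : ℕ := if x = i then u i j else 0

theorem core : ∀ x0 x1 x2 x3 x4 x5 x6 x7 x8 : Fin 3,
    ¬ ∀ i : Fin 3, 40 ≤ sc i 0 x0 + sc i 1 x1 + sc i 2 x2 + sc i 3 x3 + sc i 4 x4 + sc i 5 x5 +
      sc i 6 x6 + sc i 7 x7 + sc i 8 x8 := by decide +kernel

theorem no_alloc (J : Fin 3 → Finset ℕ) (hc : ∀ i, (J i).card ≤ 4)
    (hd : ∀ i i', i ≠ i' → Disjoint (J i) (J i')) : ¬ ∀ i, 840 ≤ ∑ j ∈ J i, v i j := by
  intro h
  classical
  let g : ℕ → Fin 3 := fun j => if j ∈ J 1 then 1 else if j ∈ J 2 then 2 else 0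
  have hg : ∀ i, ∀ j ∈ J i, g j = i := by
    intro i j hj
    have h1 : ∀ i', i' ≠ i → j ∉ J i' := fun i' hi' hj' =>
      Finset.disjoint_left.1 (hd i' i hi') hj' hj
    fin_cases i
    · simp only [g]
      rw [if_neg (h1 1 (by decide)), if_neg (h1 2 (by decide))]; rfl
    · simp only [g]
      rw [if_pos (by simpa using hj)]; rfl
    · simp only [g]
      rw [if_neg (h1 1 (by decide)), if_pos (by simpa using hj)]; rfl
  apply core (g 0) (g 1) (g 2) (g 3) (g 4) (g 5) (g 6) (g 7) (g 8)
  intro i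
  have h1 := h i
  have h2 : ∑ j ∈ J i, v i j = 200 * (J i).card + ∑ j ∈ J i, u i j := by
    simp [v, Finset.sum_add_distrib, mul_comm]
  have h3 : ∑ j ∈ J i, u i j ≤ ∑ j ∈ Finset.range 9, sc i j (g j) := by
    rw [← Finset.sum_filter_add_sum_filter_not (J i) (fun j => j < 9)]
    have h4 : ∑ j ∈ (J i).filter (fun j => ¬ j < 9), u i j = 0 := by
      refine Finset.sum_eq_zero fun j hj => ?_
      have := (Finset.mem_filter.1 hj).2
      unfold u
      rw [List.getD_eq_default]
      fin_cases i <;> simp <;> omega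
    rw [h4, add_zero]
    calc ∑ j ∈ (J i).filter (fun j => j < 9), u i j
        = ∑ j ∈ (J i).filter (fun j => j < 9), sc i j (g j) := by
          refine Finset.sum_congr rfl fun j hj => ?_
          simp [sc, hg i j (Finset.mem_filter.1 hj).1]
      _ ≤ _ := Finset.sum_le_sum_of_subset (fun j hj => by
          simpa using (Finset.mem_filter.1 hj).2)
  have h5 := hc i
  simp only [Finset.sum_range_succ, Finset.sum_range_zero, zero_add] at h3
  omega

def isl (j : ℕ) : Set ℝ := Icc (2 * (j : ℝ)) (2 * (j : ℝ) + 1)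

noncomputable def mu (i : Fin 3) : Measure ℝ :=
  ∑ j ∈ Finset.range 12, (v i j : ENNReal) • volume.restrict (isl j)

theorem isl_disj {j k : ℕ} (h : j ≠ k) : Disjoint (isl j) (isl k) := by
  rw [Set.disjoint_left]
  rintro x ⟨h1, h2⟩ ⟨h3, h4⟩
  have a1 : (j : ℝ) < k + 1 := by linarith
  have a2 : (k : ℝ) < j + 1 := by linarith
  have b1 : j < k + 1 := by exact_mod_cast a1
  have b2 : k < j + 1 := by exact_mod_cast a2
  omega

theorem vol_isl (j : ℕ) : volume (isl j) = 1 := by
  simp [isl]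

theorem mu_apply (i : Fin 3) {j : ℕ} (hj : j < 12) {S : Set ℝ} (hS : MeasurableSet S)
    (h : S ⊆ isl j) : mu i S = v i j * volume S := by
  unfold mu
  rw [Measure.finsetSum_apply, Finset.sum_eq_single j]
  · rw [Measure.smul_apply, Measure.restrict_apply hS, inter_eq_left.2 h, smul_eq_mul]
  · intro k _ hk
    rw [Measure.smul_apply, Measure.restrict_apply hS]
    have : S ∩ isl k = ∅ := (Disjoint.mono_left h (isl_disj hk.symm)).inter_eq
    simp [this]
  · intro h'
    exact absurd (Finset.mem_range.2 hj) h'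

theorem mu_finite (i : Fin 3) : IsFiniteMeasure (mu i) := by
  constructor
  unfold mu
  rw [Measure.finsetSum_apply]
  refine ENNReal.sum_lt_top.2 fun j _ => ?_
  rw [Measure.smul_apply, Measure.restrict_apply MeasurableSet.univ, univ_inter, vol_isl]
  simp

theorem mu_ac (i : Fin 3) : mu i ≪ volume := by
  refine Measure.AbsolutelyContinuous.mk fun S hS h0 => ?_
  unfold mu
  rw [Measure.finsetSum_apply]
  refine Finset.sum_eq_zero fun j _ => ?_
  rw [Measure.smul_apply, Measure.restrict_apply hS, measure_mono_null inter_subset_left h0]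
  simp

theorem mu_part (i p : Fin 3) :
    mu i (⋃ l, Ioo (2 * (P i p l : ℝ)) (2 * (P i p l : ℝ) + 1)) = 840 := by
  rw [measure_iUnion _ (fun l => measurableSet_Ioo), tsum_fintype]
  · have : ∀ l, mu i (Ioo (2 * (P i p l : ℝ)) (2 * (P i p l : ℝ) + 1)) = v i (P i p l) := by
      intro l
      rw [mu_apply i (P_lt i p l) measurableSet_Ioo Ioo_subset_Icc_self]
      simp
    simp only [this]
    have h := P_sum i p
    exact_mod_cast h
  · intro l l' hl
    have : P i p l ≠ P i p l' := fun h => hl (P_inj i p l p l' h).2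
    exact Disjoint.mono Ioo_subset_Icc_self Ioo_subset_Icc_self (isl_disj this)

theorem main : ¬ ∃ a b : Fin 3 → Fin 4 → ℝ,
      (∀ i l, ∃ j : ℕ, j < 12 ∧
        Set.Ioo (a i l) (b i l) ⊆ Set.Icc (2 * (j : ℝ)) (2 * (j : ℝ) + 1)) ∧
      (∀ i i', i ≠ i' →
        Disjoint (⋃ l, Set.Ioo (a i l) (b i l)) (⋃ l, Set.Ioo (a i' l) (b i' l))) ∧
      ∀ i, (840 : ENNReal) ≤ mu i (⋃ l, Set.Ioo (a i l) (b i l)) := by
  rintro ⟨a, b, h1, h2, h3⟩
  choose j hj hsub using h1
  have hv : ∀ i k, (v i k : ENNReal) ≤ 226 := by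
    intro i k
    have := u_le i k
    have h : v i k ≤ 226 := by unfold v; omega
    exact_mod_cast h
  have hone : ∀ i l, mu i (Ioo (a i l) (b i l)) ≤ 226 := by
    intro i l
    rw [mu_apply i (hj i l) measurableSet_Ioo (hsub i l)]
    calc (v i (j i l) : ENNReal) * volume (Ioo (a i l) (b i l)) ≤ 226 * 1 :=
          mul_le_mul' (hv _ _) ((measure_mono (hsub i l)).trans (vol_isl (j i l)).le)
      _ = 226 := mul_one _
  have hlong : ∀ i l, 1 / 2 < b i l - a i l := by
    intro i l
    by_contra hcon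
    have hl : mu i (Ioo (a i l) (b i l)) ≤ 113 := by
      rw [mu_apply i (hj i l) measurableSet_Ioo (hsub i l), Real.volume_Ioo]
      calc (v i (j i l) : ENNReal) * ENNReal.ofReal (b i l - a i l)
          ≤ 226 * ENNReal.ofReal (1 / 2) :=
            mul_le_mul' (hv _ _) (ENNReal.ofReal_le_ofReal (not_lt.1 hcon))
        _ = 113 := by
            rw [show (226 : ENNReal) = ENNReal.ofReal 226 by simp,
              ← ENNReal.ofReal_mul (by norm_num)]
            norm_num
    have h4 : mu i (⋃ l, Set.Ioo (a i l) (b i l)) ≤ ∑ l, mu i (Ioo (a i l) (b i l)) :=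
      measure_iUnion_fintype_le _ _
    rw [← Finset.add_sum_erase _ _ (Finset.mem_univ l)] at h4
    have h5 : ∑ l' ∈ Finset.univ.erase l, mu i (Ioo (a i l') (b i l')) ≤ 678 := by
      calc _ ≤ ∑ _l' ∈ Finset.univ.erase l, (226 : ENNReal) :=
            Finset.sum_le_sum fun l' _ => hone i l'
        _ = 678 := by
            rw [Finset.sum_const, Finset.card_erase_of_mem (Finset.mem_univ _)]
            simp
            norm_num
    have h6 : (840 : ENNReal) ≤ 113 + 678 := (h3 i).trans (h4.trans (add_le_add hl h5))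
    norm_num at h6
  have hmid : ∀ i l, (2 * (j i l : ℝ) + 1 / 2) ∈ Ioo (a i l) (b i l) := by
    intro i l
    have hl := hlong i l
    have hab : a i l < b i l := by linarith
    have hcl : Icc (a i l) (b i l) ⊆ Icc (2 * (j i l : ℝ)) (2 * (j i l : ℝ) + 1) := by
      rw [← closure_Ioo hab.ne]
      exact closure_minimal (hsub i l) isClosed_Icc
    have ha := hcl (left_mem_Icc.2 hab.le)
    have hb := hcl (right_mem_Icc.2 hab.le)
    constructor
    · linarith [hb.2]
    · linarith [ha.1]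
  refine no_alloc (fun i => Finset.univ.image (j i)) (fun i => ?_) (fun i i' hi => ?_) fun i => ?_
  · exact Finset.card_image_le.trans (by simp)
  · rw [Finset.disjoint_left]
    intro k hk hk'
    obtain ⟨l, -, rfl⟩ := Finset.mem_image.1 hk
    obtain ⟨l', -, hl'⟩ := Finset.mem_image.1 hk'
    refine Set.disjoint_left.1 (h2 i i' hi) (mem_iUnion.2 ⟨l, hmid i l⟩) (mem_iUnion.2 ⟨l', ?_⟩)
    rw [← hl']
    exact hmid i' l'
  · have h4 : mu i (⋃ l, Set.Ioo (a i l) (b i l)) ≤
        mu i (⋃ k ∈ Finset.univ.image (j i), isl k) := by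
      refine measure_mono (iUnion_subset fun l => ?_)
      exact (hsub i l).trans (subset_biUnion_of_mem (u := isl)
        (Finset.mem_coe.2 (Finset.mem_image_of_mem _ (Finset.mem_univ l))))
    have h5 : mu i (⋃ k ∈ Finset.univ.image (j i), isl k) ≤
        ∑ k ∈ Finset.univ.image (j i), mu i (isl k) := measure_biUnion_finset_le _ _
    have h6 : ∑ k ∈ Finset.univ.image (j i), mu i (isl k) =
        ∑ k ∈ Finset.univ.image (j i), (v i k : ENNReal) := by
      refine Finset.sum_congr rfl fun k hk => ?_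
      obtain ⟨l, -, rfl⟩ := Finset.mem_image.1 hk
      rw [mu_apply i (S := isl (j i l)) (hj i l) measurableSet_Icc Subset.rfl, vol_isl, mul_one]
    have h7 := (h3 i).trans (h4.trans (h5.trans h6.le))
    exact_mod_cast h7

end Pool.Agent.H224Z.Cake
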