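import Pool.Agent.Helper185.SelDefs

set_option autoImplicit false

namespace Pool.Agent.H224Z

open Set

/-- The selection principle `U_fin(A, B)`: for members `U n` of `A` none of which contains a
finite subcover there are finite `F n ⊆ U n` such that the unions of the `F n` form a member
of `B`. -/
def Ufin {X : Type*} (A B : Set (Set (Set X))) : Prop :=
  ∀ U : ℕ → Set (Set X), (∀ n, U n ∈ A) →
    (∀ n, ¬ ∃ F ⊆ U n, F.Finite ∧ ⋃₀ F = univ) →
    ∃ F : ℕ → Set (Set X), (∀ n, (F n).Finite ∧ F n ⊆ U n) ∧ range (fun n => ⋃₀ F n) ∈ B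

end Pool.Agent.H224Z
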