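import Pool.Agent.H224Z.SfinTau
import Pool.Agent.H224Z.UfinDef

set_option autoImplicit false

namespace Pool.Agent.H224Z.NotHur

open Set Pool.Agent.Helper185.Sel Pool.Agent.H224Z.SplitL Pool.Agent.H224Z.SfinTau
open Pool.Agent.Helper185.Silver Pool.Agent.Helper185.Blk

theorem sparse {q : ℕ → Finset ℕ} (hq : Bl q) {D : Set ℕ} (hD : D.Infinite) (a b : ℕ → ℕ)
    (ha : ∀ k, k ≤ a k) : ∃ J ⊆ D, J.Infinite ∧
      ∀ N, ∃ k, N ≤ k ∧ ∀ m, a k ≤ m → m < b k → m ∉ UU q J := by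
  have h1 : ∀ L, ∃ j ∈ D, max L (b L) < j := fun L => hD.exists_gt _
  choose j hjD hj using h1
  obtain ⟨c, hc, -, hg⟩ := exists_seq (fun L => (q (j L)).sup id + 1) 0
  have hlt : ∀ n, ∀ m ∈ q (j (c n)), m < c (n + 1) := by
    intro n m hm
    have h2 : m ≤ (q (j (c n))).sup id := Finset.le_sup (f := id) hm
    have h3 := hg n
    omega
  have hjc : ∀ n, j (c n) < c (n + 1) := by
    intro n
    obtain ⟨m, hm⟩ := hq.ne (j (c n))
    exact (hq.le _ m hm).trans_lt (hlt n m hm)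
  refine ⟨range (fun n => j (c n)), ?_, ?_, fun N => ⟨c N, hc.id_le N, ?_⟩⟩
  · rintro _ ⟨n, rfl⟩
    exact hjD _
  · apply infinite_range_of_injective
    apply StrictMono.injective
    apply strictMono_nat_of_lt_succ
    intro n
    have h2 := hjc n
    have h3 := hj (c (n + 1))
    omega
  · rintro m h2 h3 ⟨_, ⟨n, rfl⟩, hm⟩
    have h4 := hlt n m hm
    have h5 := hq.le _ m hm
    have h6 := ha (c N)
    rcases lt_trichotomy n N with h | h | h
    · have := hc.monotone (show n + 1 ≤ N from h)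
      omega
    · subst h
      have := hj (c n)
      simp only at h5
      omega
    · have h7 := hc.monotone (show N + 1 ≤ n from h)
      have h8 := hjc N
      have h9 := hj (c N)
      have h10 := hj (c n)
      simp only at h5
      omega

variable {I : Type} [LinearOrder I] [WellFoundedLT I]
variable {B : I → Set ℕ} {O : I → ℕ → Set (Set ℕ)} {p : I → ℕ → Finset ℕ}

theorem unbounded (hp : ∀ i, Req B O i (fun j _ => p j) (p i))
    (hall : ∀ W : ℕ → Set (Set ℕ), (∀ n, Op (W n)) → ∃ i, O i = W)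
    (hB : ∀ C : Set ℕ, ∃ i, B i = C) (a b : ℕ → ℕ) (ha : ∀ k, k ≤ a k)
    (h : ∀ i A, EqS A (UU (p i) univ) → ∃ N, ∀ k, N ≤ k → ∃ m, a k ≤ m ∧ m < b k ∧ m ∈ A) :
    False := by
  classical
  obtain ⟨i, hi⟩ := hall (fun k => {A | ∃ m, a k ≤ m ∧ m < b k ∧ m ∈ A}) (by
    rintro k A ⟨m, h1, h2, h3⟩
    exact ⟨b k, fun C hC => ⟨m, h1, h2, (hC m h2).2 h3⟩⟩)
  have hq := (hp i).1
  rcases (hp i).2.2.2 with ⟨F, hF, hFX, N, hN⟩ | ⟨m, hm1, -, hm3⟩
  · have h1 : ∀ A : Set ℕ, ∃ N, A ∈ F → ∀ k, N ≤ k → ∃ m, a k ≤ m ∧ m < b k ∧ m ∈ A := by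
      intro A
      by_cases hA : A ∈ F
      · rcases hFX hA with ⟨j, _, h2⟩ | h2
        · obtain ⟨N, hN⟩ := h j A h2
          exact ⟨N, fun _ => hN⟩
        · obtain ⟨N, hN⟩ := h i A h2
          exact ⟨N, fun _ => hN⟩
      · exact ⟨0, fun h => absurd h hA⟩
    choose M hM using h1
    obtain ⟨K, hK⟩ := (hF.image M).bddAbove
    apply hN (max N K) (le_max_left _ _)
    intro A hA
    rw [hi]
    exact hM A hA _ ((hK ⟨A, hA, rfl⟩).trans (le_max_right _ _))
  · rw [hi] at hm3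
    have hmono : StrictMono (m false) := by
      apply strictMono_nat_of_lt_succ
      intro k
      exact (hm1 k).1.trans (hm1 k).2
    obtain ⟨j, hj⟩ := hB (UU (p i) univ)
    have h1 := (hp j).2.2.1 (by rw [hj]; exact UU_infinite hq infinite_univ)
    rw [hj] at h1
    have hij : i ≤ j := by
      by_contra hlt
      obtain ⟨N, hN⟩ := UU_univ_sub hq (hp j).1 (tower_le hp (not_le.1 hlt).le)
      apply h1
      refine (finite_lt_nat N).subset ?_
      rintro n ⟨h2, h3⟩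
      by_contra h4
      exact h3 (hN n (not_lt.1 h4) h2)
    obtain ⟨J0, -, hJ0⟩ := (tower_le hp hij).exists_index (hp j).1 hq infinite_univ
    have hJ0c : J0ᶜ.Infinite := by
      intro hfin
      apply h1
      obtain ⟨N, hN⟩ := hJ0
      refine ((finite_lt_nat N).union
        (hfin.biUnion fun k _ => (p i k).finite_toSet)).subset ?_
      rintro n ⟨⟨k, -, hk⟩, h3⟩
      by_cases h4 : n < N
      · exact Or.inl h4
      · refine Or.inr (mem_biUnion (x := k) (fun h5 => h3 ?_) hk)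
        exact (hN n (not_lt.1 h4)).2 ⟨k, h5, hk⟩
    obtain ⟨N0, hN0⟩ := h j (UU (p j) univ) (EqS.refl _)
    obtain ⟨N1, hN1⟩ := hJ0
    have h2 : ∀ k, ∃ l ∈ J0, max N0 N1 ≤ k →
        ∃ r, a (m false k) ≤ r ∧ r < b (m false k) ∧ r ∈ p i l := by
      intro k
      have h3 := hmono.id_le (max k (max N0 N1))
      simp only [id] at h3
      obtain ⟨r, g1, g2, g3⟩ := hN0 (m false (max k (max N0 N1))) (by omega)
      have h4 := ha (m false (max k (max N0 N1)))
      obtain ⟨l, g4, g5⟩ := (hN1 r (by omega)).1 g3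
      refine ⟨l, g4, fun hk => ⟨r, ?_⟩⟩
      rw [max_eq_left hk] at g1 g2
      exact ⟨g1, g2, g5⟩
    choose l hl0 hl using h2
    let K : Set ℕ := {k | k ∈ J0ᶜ ∧ max N0 N1 ≤ k}
    have hK : K.Infinite := by
      intro hfin
      apply hJ0c
      refine (hfin.union (finite_lt_nat (max N0 N1))).subset ?_
      intro k hk
      by_cases h3 : k < max N0 N1
      · exact Or.inr h3
      · exact Or.inl ⟨hk, not_lt.1 h3⟩
    have hfib : ∀ s, {k | k ∈ K ∧ l k = s}.Finite := by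
      intro s
      refine (finite_le_nat ((p i s).sup id)).subset ?_
      rintro k ⟨hk, rfl⟩
      obtain ⟨r, g1, -, g3⟩ := hl k hk.2
      have h3 : r ≤ (p i (l k)).sup id := Finset.le_sup (f := id) g3
      have h4 := ha (m false k)
      have h5 := hmono.id_le k
      simp only [id] at h5
      change k ≤ _
      omega
    have hD : (l '' K).Infinite := by
      intro hfin
      apply hK
      refine (hfin.biUnion fun s _ => hfib s).subset ?_
      intro k hk
      exact mem_biUnion (x := l k) ⟨k, hk, rfl⟩ ⟨hk, rfl⟩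
    obtain ⟨J, hJD, hJi, hJ⟩ := sparse hq hD (fun k => a (m false k)) (fun k => b (m false k))
      (fun k => (hmono.id_le k).trans (ha _))
    rcases hm3 false J hJi (UU (p i) J) (EqS.refl _) with ⟨i0, hi0⟩ | ⟨i0, hi0⟩
    · obtain ⟨k, hk, hk'⟩ := hJ i0
      obtain ⟨r, g1, g2, g3⟩ := hi0 k hk
      exact hk' r g1 g2 g3
    · apply hJi
      refine ((finite_lt_nat i0).image l).subset ?_
      intro s hs
      obtain ⟨k, hk, rfl⟩ := hJD hs
      refine ⟨k, ?_, rfl⟩
      by_contra h3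
      obtain ⟨r, g1, g2, g3⟩ := hl k hk.2
      have h4 := (hi0 k (not_lt.1 h3)).1 ⟨r, g1, g2, l k, hs, g3⟩
      obtain ⟨k', -, hk'⟩ := hJD h4
      exact hk.1 (hk' ▸ hl0 k')

/-- the canonical increasing covers -/
def cv {Y : Type} (e : Y → XT p) (n m : ℕ) : Set Y :=
  {y | ∃ k, n ≤ k ∧ k < m ∧ k ∈ supp (e y)}

theorem point [Nonempty I] (s : Finset ℕ) (M : ℕ) :
    ∃ x : XT p, ∀ k < M, (k ∈ supp x ↔ k ∈ s) := by
  obtain ⟨i0⟩ := (inferInstance : Nonempty I)
  refine ⟨⟨ch ({k | k < M ∧ k ∈ s} ∪ {k | M ≤ k ∧ k ∈ UU (p i0) univ}),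
    ch_mem p i0 ⟨M, fun n hn => ?_⟩⟩, fun k hk => ?_⟩
  · constructor
    · rintro (h | h)
      · exact absurd h.1 (not_lt.2 hn)
      · exact h.2
    · exact fun h => Or.inr ⟨hn, h⟩
  · rw [supp_ch]
    constructor
    · rintro (h | h)
      · exact h.2
      · exact absurd h.1 (not_le.2 hk)
    · exact fun h => Or.inl ⟨hk, h⟩

theorem cv_mono {Y : Type} (e : Y → XT p) (n : ℕ) {m m' : ℕ} (h : m ≤ m') :
    cv e n m ⊆ cv e n m' := by
  rintro y ⟨k, h1, h2, h3⟩
  exact ⟨k, h1, h2.trans_le h, h3⟩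

theorem cv_ne [Nonempty I] {Y : Type} {e : Y → XT p} (he : Function.Surjective e) (n m : ℕ) :
    cv e n m ≠ univ := by
  intro h
  obtain ⟨x, hx⟩ := point (p := p) ∅ m
  obtain ⟨y, rfl⟩ := he x
  obtain ⟨k, -, h2, h3⟩ : y ∈ cv e n m := h ▸ mem_univ y
  simpa using (hx k h2).1 h3

theorem cv_gamma [Nonempty I] (hp : ∀ i, Req B O i (fun j _ => p j) (p i)) {Y : Type}
    [TopologicalSpace Y] {e : Y → XT p} (he : Function.Surjective e) (hc : Continuous e) (n : ℕ) :
    range (cv e n) ∈ GammaOf (OpenFam Y) := by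
  refine gamma_of_seq ?_ ?_ ?_ ?_
  · rintro _ ⟨m, rfl⟩
    have h1 : cv e n m = ⋃ k ∈ {k | n ≤ k ∧ k < m},
        (fun y => ((e y : XT p) : Z) k) ⁻¹' {true} := by
      ext y
      simp only [cv, supp, mem_ofPred_eq, mem_iUnion, mem_preimage, mem_singleton_iff,
        exists_prop, and_assoc]
    rw [h1]
    refine isOpen_biUnion fun k _ => (isOpen_discrete _).preimage ?_
    exact (continuous_apply k).comp (continuous_subtype_val.comp hc)
  · rintro ⟨m, hm⟩
    exact cv_ne he n m hm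
  · have h1 : StrictMono (fun m => cv e n (n + m)) := by
      apply strictMono_nat_of_lt_succ
      intro m
      refine lt_of_le_of_ne (cv_mono e n (by omega)) fun h => ?_
      obtain ⟨x, hx⟩ := point (p := p) {n + m} (n + m + 1)
      obtain ⟨y, rfl⟩ := he x
      have h2 : y ∈ cv e n (n + (m + 1)) := ⟨n + m, by omega, by omega,
        (hx _ (by omega)).2 (Finset.mem_singleton_self _)⟩
      rw [← h] at h2
      obtain ⟨k, -, h3, h4⟩ := h2
      have := Finset.mem_singleton.1 ((hx k (by omega)).1 h4)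
      omega
    refine (infinite_range_of_injective h1.injective).mono ?_
    rintro _ ⟨m, rfl⟩
    exact ⟨_, rfl⟩
  · intro y
    obtain ⟨i, N, hN⟩ := (e y).2
    obtain ⟨k, hk, hlt⟩ := (UU_infinite (hp i).1 infinite_univ).exists_gt (max n N)
    refine ((finite_le_nat k).image (cv e n)).subset ?_
    rintro _ ⟨⟨m, rfl⟩, hm⟩
    refine ⟨m, ?_, rfl⟩
    by_contra h
    have h1 : k < m := not_le.1 h
    exact hm ⟨k, by omega, h1, (hN k (by omega)).2 hk⟩

theorem fin_sub {Y : Type} (e : Y → XT p) (n : ℕ) {F : Set (Set Y)} (hF : F.Finite)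
    (hs : F ⊆ range (cv e n)) : ∃ m, ⋃₀ F ⊆ cv e n m := by
  induction F, hF using Set.Finite.induction_on with
  | empty => exact ⟨0, by simp⟩
  | @insert u S _ _ ih =>
    obtain ⟨m, hm⟩ := ih ((subset_insert _ _).trans hs)
    obtain ⟨m', rfl⟩ := hs (mem_insert _ _)
    refine ⟨max m m', ?_⟩
    rw [sUnion_insert]
    exact union_subset (cv_mono e n (le_max_right _ _)) (hm.trans (cv_mono e n (le_max_left _ _)))

theorem no_seq [Nonempty I] (hp : ∀ i, Req B O i (fun j _ => p j) (p i))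
    (hall : ∀ W : ℕ → Set (Set ℕ), (∀ n, Op (W n)) → ∃ i, O i = W)
    (hB : ∀ C : Set ℕ, ∃ i, B i = C) {Y : Type} {e : Y → XT p} (he : Function.Surjective e)
    (a b : ℕ → ℕ) (ha : ∀ k, k ≤ a k) (h : ∀ y, {k | y ∉ cv e (a k) (b k)}.Finite) : False := by
  refine unbounded hp hall hB a b ha fun i A hA => ?_
  obtain ⟨y, hy⟩ := he ⟨ch A, ch_mem p i hA⟩
  obtain ⟨N, hN⟩ := (h y).bddAbove
  refine ⟨N + 1, fun k hk => ?_⟩
  have h1 : y ∈ cv e (a k) (b k) := by
    by_contra h2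
    have := hN h2
    omega
  obtain ⟨m, h2, h3, h4⟩ := h1
  rw [hy, supp_ch] at h4
  exact ⟨m, h2, h3, h4⟩

theorem not_ufin [Nonempty I] (hp : ∀ i, Req B O i (fun j _ => p j) (p i))
    (hall : ∀ W : ℕ → Set (Set ℕ), (∀ n, Op (W n)) → ∃ i, O i = W)
    (hB : ∀ C : Set ℕ, ∃ i, B i = C) {Y : Type} [TopologicalSpace Y] {e : Y → XT p}
    (he : Function.Surjective e) (hc : Continuous e) :
    ¬ Ufin (GammaOf (OpenFam Y)) (GammaOf (OpenFam Y)) := by
  intro h
  obtain ⟨F, hF, hG⟩ := h (fun n => range (cv e n)) (cv_gamma hp he hc) (by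
    rintro n ⟨F, h1, h2, h3⟩
    obtain ⟨m, hm⟩ := fin_sub e n h2 h1
    exact cv_ne he n m (univ_subset_iff.1 (h3 ▸ hm)))
  choose f hf using fun n => fin_sub e n (hF n).1 (hF n).2
  obtain ⟨g, hg, hgm⟩ := exists_sdr (fun k => (fun n => ⋃₀ F n) '' {n | k ≤ n}) (by
    intro k hfin
    apply hG.2.2.1
    refine (hfin.union ((finite_lt_nat k).image (fun n => ⋃₀ F n))).subset ?_
    rintro _ ⟨n, rfl⟩
    by_cases h1 : n < k
    · exact Or.inr ⟨n, h1, rfl⟩
    · exact Or.inl ⟨n, not_lt.1 h1, rfl⟩)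
  choose a ha hag using hgm
  refine no_seq hp hall hB he a (fun k => f (a k)) ha fun y => ?_
  refine ((hG.2.2.2 y).preimage hg.injOn).subset ?_
  intro k hk
  refine ⟨⟨a k, hag k⟩, fun h1 => hk (hf _ ?_)⟩
  rw [← hag k] at h1
  exact h1

theorem not_good [Nonempty I] (hp : ∀ i, Req B O i (fun j _ => p j) (p i))
    (hall : ∀ W : ℕ → Set (Set ℕ), (∀ n, Op (W n)) → ∃ i, O i = W)
    (hB : ∀ C : Set ℕ, ∃ i, B i = C) {Y : Type} [TopologicalSpace Y] {e : Y → XT p}
    (he : Function.Surjective e) (hc : Continuous e) : ¬ Good (OpenFam Y) univ := by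
  intro h
  obtain ⟨V, hV, hx⟩ := h (fun n => range (cv e n)) (cv_gamma hp he hc)
  choose f hf using hV
  refine no_seq hp hall hB he id f (fun k => le_rfl) fun y => ?_
  refine (hx y (mem_univ y)).subset ?_
  intro k hk
  change y ∉ V k
  rw [← hf k]
  exact hk

theorem main (hCH : Cardinal.aleph 1 = Cardinal.continuum.{0}) :
    ∃ X : Set ℝ, X.Infinite ∧ Sfin (OmegaOf (OpenFam X)) (TauOf (OpenFam X)) ∧
      ¬ Ufin (GammaOf (OpenFam X)) (GammaOf (OpenFam X)) ∧
      ¬ S1 (GammaOf (OpenFam X)) (TauOf (OpenFam X)) := by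
  obtain ⟨I, _, _, hI, B, O, hO, hBO⟩ := Pool.Agent.Helper185.Blk.exists_enumeration hCH
  obtain ⟨p, hp⟩ := Pool.Agent.Helper185.Blk.exists_tower hI B O hO
  have hU : ∀ n : ℕ, Op ((fun _ => univ : ℕ → Set (Set ℕ)) n) :=
    fun n A _ => ⟨0, fun _ _ => trivial⟩
  have : Nonempty I := by
    obtain ⟨i, -⟩ := hBO ∅ (fun _ => univ) hU
    exact ⟨i⟩
  have hall : ∀ W : ℕ → Set (Set ℕ), (∀ n, Op (W n)) → ∃ i, O i = W := fun W hW => by
    obtain ⟨i, _, hi⟩ := hBO ∅ W hW
    exact ⟨i, hi⟩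
  have hB : ∀ C : Set ℕ, ∃ i, B i = C := fun C => by
    obtain ⟨i, hi, _⟩ := hBO C (fun _ => univ) hU
    exact ⟨i, hi⟩
  have h1 := split_XT hp hall
  obtain ⟨g, hg⟩ := exists_embedding_Z
  obtain ⟨eX⟩ := homeo_image hg (XT p)
  have h2 := not_good hp hall hB eX.symm.surjective eX.symm.continuous
  refine ⟨g '' XT p, ?_, sfin_of_choose (split_choose ?_),
    not_ufin hp hall hB eX.symm.surjective eX.symm.continuous,
    fun h => h2 (good_of_s1_gamma_tau (adm_open _) h)⟩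
  · intro hfin
    have := hfin.to_subtype
    exact (cv_gamma hp eX.symm.surjective eX.symm.continuous 0).2.2.1 (toFinite _)
  · exact split_transport eX (fun U hU => pull_omega eX hU) (fun U hU => pull_tau eX.symm hU) h1

end Pool.Agent.H224Z.NotHur
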