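import Pool.Agent.H224Z.SplitL
import Pool.Agent.Helper971.SqR.OmegaTau

set_option autoImplicit false

namespace Pool.Agent.H224Z.SfinTau

open Set Pool.Agent.Helper185.Sel Pool.Agent.H224Z.SplitL

variable {X : Type*}

theorem omega_inf {U : Set (Set X)} (h1 : univ ∉ U)
    (h2 : ∀ F : Set X, F.Finite → ∃ u ∈ U, F ⊆ u) {F : Set X} (hF : F.Finite) :
    {u | u ∈ U ∧ F ⊆ u}.Infinite := by
  classical
  intro hfin
  have hw : ∀ u : U, ∃ z, z ∉ u.1 := fun u =>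
    (ne_univ_iff_exists_notMem _).1 (fun h => h1 (h ▸ u.2))
  choose z hz using hw
  have h3 : ((fun u : U => u.1) ⁻¹' {u | u ∈ U ∧ F ⊆ u}).Finite :=
    hfin.preimage Subtype.val_injective.injOn
  obtain ⟨u, hu, hFu⟩ := h2 (F ∪ z '' _) (hF.union (h3.image z))
  exact hz ⟨u, hu⟩ (hFu (Or.inr ⟨⟨u, hu⟩, ⟨hu, subset_union_left.trans hFu⟩, rfl⟩))

/-- `(Ω choose T)` implies `S_fin(Ω, T)`. -/
theorem sfin_of_choose [TopologicalSpace X] [T1Space X] [SecondCountableTopology X]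
    (h : Choose (OmegaOf (OpenFam X)) (TauOf (OpenFam X))) :
    Sfin (OmegaOf (OpenFam X)) (TauOf (OpenFam X)) := by
  classical
  intro U hU
  have hXinf : Infinite X := by
    by_contra hfin
    rw [not_infinite_iff_finite] at hfin
    obtain ⟨u, hu, hb⟩ := (hU 0).2.2 univ finite_univ
    exact (hU 0).2.1.2 (univ_subset_iff.1 hb ▸ hu)
  let y : ℕ ↪ X := Infinite.natEmbedding X
  choose U' hU'U hU'c hU'ω using fun n =>
    Pool.Agent.Helper185.Sierp.exists_countable_omega (hU n).1 (hU n).2.2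
  have hc : (⋃ n, U' n).Countable := countable_iUnion hU'c
  obtain ⟨e, he⟩ := countable_iff_exists_injOn.1 hc
  let V : Set (Set X) := {t | ∃ n, ∃ u ∈ U' n, n ≤ e u ∧ t = u \ {y n}}
  have hVF : ∀ F : Set X, F.Finite → ∃ t ∈ V, F ⊆ t := by
    intro F hF
    have h1 : (y ⁻¹' F).Finite := hF.preimage y.injective.injOn
    obtain ⟨N, hN⟩ := h1.bddAbove
    have h2 := omega_inf (fun h => (hU (N + 1)).2.1.2 (hU'U _ h)) (hU'ω (N + 1)) hF
    have h3 : (e '' {u | u ∈ U' (N + 1) ∧ F ⊆ u}).Infinite :=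
      h2.image (he.mono fun u hu => mem_iUnion.2 ⟨_, hu.1⟩)
    obtain ⟨_, ⟨u, hu, rfl⟩, hlt⟩ := h3.exists_gt (N + 1)
    refine ⟨_, ⟨N + 1, u, hu.1, hlt.le, rfl⟩, fun x hx => ⟨hu.2 hx, ?_⟩⟩
    rintro rfl
    have := hN hx
    omega
  have hV : V ∈ OmegaOf (OpenFam X) := by
    refine ⟨?_, ⟨?_, ?_⟩, hVF⟩
    · rintro _ ⟨n, u, hu, -, rfl⟩
      exact ((hU n).1 u (hU'U n hu)).sdiff isClosed_singleton
    · rw [eq_univ_iff_forall]
      intro x
      obtain ⟨u, hu, hx⟩ := hVF {x} (finite_singleton x)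
      exact ⟨u, hu, hx rfl⟩
    · rintro ⟨n, u, -, -, hab⟩
      have : y n ∈ u \ {y n} := hab ▸ mem_univ _
      exact this.2 rfl
  obtain ⟨T, hTV, hT⟩ := h V hV
  have hch : ∀ t : Set X, ∃ (n : ℕ) (u : Set X), t ∈ T → u ∈ U' n ∧ n ≤ e u ∧ t = u \ {y n} := by
    intro t
    by_cases ht : t ∈ T
    · obtain ⟨n, u, h1, h2, h3⟩ := hTV ht
      exact ⟨n, u, fun _ => ⟨h1, h2, h3⟩⟩
    · exact ⟨0, ∅, fun h => absurd h ht⟩
  choose a b hab using hch
  have hlin := (tau_iff.1 hT).2.2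
  obtain ⟨T', hT'T, hfib, hT'⟩ := thin hlin y a (fun t ht hy =>
    ((hab t ht).2.2.subset hy).2 rfl)
  have hunion : (⋃ n, b '' {t | t ∈ T' ∧ a t = n}) = b '' T' := by
    ext u
    simp only [mem_iUnion, mem_image]
    constructor
    · rintro ⟨n, t, ht, rfl⟩
      exact ⟨t, ht.1, rfl⟩
    · rintro ⟨t, ht, rfl⟩
      exact ⟨a t, t, ⟨ht, rfl⟩, rfl⟩
  have hbU : ∀ t ∈ T', b t ∈ U (a t) := fun t ht => hU'U _ (hab t (hT'T ht)).1
  have hpt : ∀ x, {t | t ∈ T' ∧ x ∈ b t ∧ x ∉ t}.Finite := by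
    intro x
    by_cases hx : ∃ n, y n = x
    · obtain ⟨n, rfl⟩ := hx
      refine (hfib n).subset ?_
      rintro t ⟨h1, h2, h3⟩
      refine ⟨h1, ?_⟩
      by_contra hne
      apply h3
      refine (hab t (hT'T h1)).2.2.symm.subset ⟨h2, fun h4 => hne ?_⟩
      exact (y.injective h4).symm
    · refine finite_empty.subset ?_
      rintro t ⟨h1, h2, h3⟩
      apply h3
      exact (hab t (hT'T h1)).2.2.symm.subset ⟨h2, fun h4 => hx ⟨_, h4.symm⟩⟩
  have hsub : ∀ t ∈ T', t ⊆ b t := fun t ht =>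
    (hab t (hT'T ht)).2.2.subset.trans sdiff_subset
  have hle : ∀ x z, Le T x z → Le (b '' T') x z := by
    intro x z hxz
    refine (((hpt x).union hxz).image b).subset ?_
    rintro _ ⟨⟨t, ht, rfl⟩, h1, h2⟩
    refine ⟨t, ?_, rfl⟩
    by_cases hx : x ∈ t
    · exact Or.inr ⟨hT'T ht, hx, fun hz => h2 (hsub t ht hz)⟩
    · exact Or.inl ⟨ht, h1, hx⟩
  refine ⟨fun n => b '' {t | t ∈ T' ∧ a t = n}, fun n => ⟨(hfib n).image b, ?_⟩, ?_⟩
  · rintro _ ⟨t, ⟨ht, rfl⟩, rfl⟩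
    exact hbU t ht
  · rw [hunion]
    refine tau_of_lin ?_ ?_ ⟨?_, fun x z => (hlin.lin x z).imp (hle x z) (hle z x)⟩
    · rintro _ ⟨t, ht, rfl⟩
      exact (hU _).1 _ (hbU t ht)
    · rintro ⟨t, ht, hbt⟩
      exact (hU _).2.1.2 (hbt ▸ hbU t ht)
    · intro x hfin
      apply hT' {x} (finite_singleton x)
      obtain ⟨N, hN⟩ := (hfin.image e).bddAbove
      have h1 : (⋃ m ∈ {m | m ≤ N}, {t | t ∈ T' ∧ a t = m}).Finite :=
        (finite_le_nat N).biUnion fun m _ => hfib m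
      refine h1.subset ?_
      rintro t ⟨ht, hx⟩
      refine mem_biUnion (x := a t) ?_ ⟨ht, rfl⟩
      exact (hab t (hT'T ht)).2.1.trans (hN ⟨b t, ⟨⟨t, ht, rfl⟩, hsub t ht (hx rfl)⟩, rfl⟩)

theorem choose_of_sfin {A B : Set (Set (Set X))} (h : Sfin A B) : Choose A B := by
  intro U hU
  obtain ⟨F, h1, h2⟩ := h (fun _ => U) (fun _ => hU)
  exact ⟨_, iUnion_subset fun n => (h1 n).2, h2⟩

open Pool.Agent.Helper185.Silver Pool.Agent.Helper185.Blk Pool.Agent.Helper971.SqR in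
theorem square (hCH : Cardinal.aleph 1 = Cardinal.continuum.{0}) :
    ∃ X : Set ℝ, Sfin (OmegaOf (OpenFam X)) (TauOf (OpenFam X)) ∧
      ¬ Sfin (OmegaOf (OpenFam (Fin 2 → X))) (TauOf (OpenFam (Fin 2 → X))) := by
  obtain ⟨I, _, _, hI, B, O, hO, hBO⟩ := Pool.Agent.Helper185.Blk.exists_enumeration hCH
  obtain ⟨p, hp⟩ := Pool.Agent.Helper185.Blk.exists_tower hI B O hO
  have hU : ∀ n : ℕ, Op ((fun _ => univ : ℕ → Set (Set ℕ)) n) :=
    fun n A _ => ⟨0, fun _ _ => trivial⟩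
  have : Nonempty I := by
    obtain ⟨i, -⟩ := hBO ∅ (fun _ => univ) hU
    exact ⟨i⟩
  have h1 : SplitP (OmegaOf (OpenFam (XT p))) (TauOf (OpenFam (XT p))) :=
    split_XT hp (fun W hW => by
      obtain ⟨i, _, hi⟩ := hBO ∅ W hW
      exact ⟨i, hi⟩)
  have h2 : ¬ Choose (OmegaOf (OpenFam (Fin 2 → XT p))) (TauOf (OpenFam (Fin 2 → XT p))) :=
    not_choose_sq hp (fun C => by
      obtain ⟨i, hi, _⟩ := hBO C (fun _ => univ) hU
      exact ⟨i, hi⟩)
  obtain ⟨g, hg⟩ := exists_embedding_Z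
  obtain ⟨eX⟩ := homeo_image hg (XT p)
  refine ⟨g '' XT p, sfin_of_choose (split_choose ?_), fun h => h2 ?_⟩
  · exact split_transport eX (fun U hU => pull_omega eX hU) (fun U hU => pull_tau eX.symm hU) h1
  · have e2 : (Fin 2 → XT p) ≃ₜ (Fin 2 → (g '' XT p)) := Homeomorph.piCongrRight (fun _ => eX)
    exact choose_transport e2.symm (fun U hU => pull_omega e2.symm hU)
      (fun U hU => pull_tau e2 hU) (choose_of_sfin h)

end Pool.Agent.H224Z.SfinTau
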