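import Pool.Agent.Helper185.SelTau
import Pool.Agent.Helper185.SelDefs2

set_option autoImplicit false

namespace Pool.Agent.H224Z.SplitL

open Set Pool.Agent.Helper185.Sel

variable {X : Type*}

def IsLarge (U : Set (Set X)) : Prop := ∀ x, {u | u ∈ U ∧ x ∈ u}.Infinite

theorem finite_subset_of_mono {α : Type*} {W : ℕ → Set α} (hW : Monotone W) {S : Set α}
    (hS : S.Finite) (h : S ⊆ ⋃ n, W n) : ∃ n, S ⊆ W n := by
  induction S, hS using Set.Finite.induction_on with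
  | empty => exact ⟨0, empty_subset _⟩
  | @insert a S _ _ ih =>
    obtain ⟨n, hn⟩ := ih ((subset_insert a S).trans h)
    obtain ⟨m, hm⟩ := mem_iUnion.1 (h (mem_insert a S))
    refine ⟨max n m, insert_subset (hW (le_max_right _ _) hm) (hn.trans (hW (le_max_left _ _)))⟩

theorem exists_countable_large [TopologicalSpace X] [SecondCountableTopology X]
    {U : Set (Set X)} (hopen : ∀ u ∈ U, IsOpen u) (hinf : IsLarge U) :
    ∃ V : Set (Set X), V ⊆ U ∧ V.Countable ∧ IsLarge V := by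
  classical
  have key : ∀ S : Set (Set X), ∃ T : Set (Set X),
      S ⊆ U → (T.Countable ∧ T ⊆ S ∧ ⋃₀ T = ⋃₀ S) := by
    intro S
    by_cases hS : S ⊆ U
    · obtain ⟨T, hT1, hT2, hT3⟩ := TopologicalSpace.isOpen_sUnion_countable S
        (fun s hs => hopen s (hS hs))
      exact ⟨T, fun _ => ⟨hT1, hT2, hT3⟩⟩
    · exact ⟨∅, fun h => absurd h hS⟩
  choose T hT using key
  let W : ℕ → Set (Set X) := fun n => Nat.rec ∅ (fun _ w => w ∪ T (U \ w)) n
  have hW0 : W 0 = ∅ := rfl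
  have hWs : ∀ n, W (n + 1) = W n ∪ T (U \ W n) := fun n => rfl
  have hT' : ∀ n, (T (U \ W n)).Countable ∧ T (U \ W n) ⊆ U \ W n ∧
      ⋃₀ T (U \ W n) = ⋃₀ (U \ W n) := fun n => hT _ sdiff_subset
  have hWsub : ∀ n, W n ⊆ U := by
    intro n
    induction n with
    | zero => rw [hW0]; exact empty_subset _
    | succ n ih => rw [hWs]; exact union_subset ih ((hT' n).2.1.trans sdiff_subset)
  have hWc : ∀ n, (W n).Countable := by
    intro n
    induction n with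
    | zero => rw [hW0]; exact countable_empty
    | succ n ih => rw [hWs]; exact ih.union (hT' n).1
  have hmono : Monotone W :=
    monotone_nat_of_le_succ (fun n => by rw [hWs]; exact subset_union_left)
  refine ⟨⋃ n, W n, iUnion_subset hWsub, countable_iUnion hWc, ?_⟩
  intro z hfin
  have hex : ∃ n, {u | u ∈ ⋃ n, W n ∧ z ∈ u} ⊆ W n := by
    refine finite_subset_of_mono hmono hfin ?_
    rintro u ⟨hu, -⟩
    exact hu
  obtain ⟨n, hn⟩ := hex
  apply hinf z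
  refine hfin.subset ?_
  rintro u ⟨hu, hzu⟩
  refine ⟨?_, hzu⟩
  by_contra hcon
  have hUn : u ∈ U \ W n := ⟨hu, fun h => hcon (mem_iUnion.2 ⟨n, h⟩)⟩
  have hz : z ∈ ⋃₀ (U \ W n) := ⟨u, hUn, hzu⟩
  rw [← (hT' n).2.2] at hz
  obtain ⟨V, hV, hzV⟩ := hz
  have hV1 : V ∈ W (n + 1) := by rw [hWs]; exact Or.inr hV
  have : V ∈ W n := hn ⟨mem_iUnion.2 ⟨n + 1, hV1⟩, hzV⟩
  exact ((hT' n).2.1 hV).2 this

/-- union of a block of members of the sequence -/
def M (L : ℕ → Set X) (a b : ℕ) : Set X := {x | ∃ n, a ≤ n ∧ n < b ∧ x ∈ L n}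

theorem M_mono (L : ℕ → Set X) {a b a' b' : ℕ} (ha : a' ≤ a) (hb : b ≤ b') :
    M L a b ⊆ M L a' b' := by
  rintro x ⟨n, h1, h2, h3⟩
  exact ⟨n, by omega, by omega, h3⟩

theorem M_open [TopologicalSpace X] {L : ℕ → Set X} (hL : ∀ n, IsOpen (L n)) (a b : ℕ) :
    IsOpen (M L a b) := by
  have : M L a b = ⋃ n, ⋃ (_ : a ≤ n ∧ n < b), L n := by
    ext x
    simp only [M, mem_setOf_eq, mem_iUnion, exists_prop, and_assoc]
  rw [this]
  exact isOpen_iUnion fun n => isOpen_iUnion fun _ => hL n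

theorem M_finite {L : ℕ → Set X} (hL : ∀ x, {n | x ∈ L n}.Infinite) (a : ℕ) {F : Set X}
    (hF : F.Finite) : ∃ b, F ⊆ M L a b := by
  refine finite_subset_of_mono (W := fun b => M L a b) (fun b b' h => M_mono L le_rfl h) hF ?_
  intro x _
  obtain ⟨n, hn, hna⟩ := (hL x).exists_gt a
  exact mem_iUnion.2 ⟨n + 1, n, hna.le, Nat.lt_succ_self n, hn⟩

/-- the grouping lemma -/
theorem group {L : ℕ → Set X} (hinj : Function.Injective L) {c : ℕ → ℕ} (hc : StrictMono c)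
    {S S' : Set ℕ} (hd : Disjoint S S')
    (hS : ∀ x, {k | k ∈ S ∧ x ∈ M L (c k) (c (k + 1))}.Infinite)
    (hS' : ∀ x, {k | k ∈ S' ∧ x ∈ M L (c k) (c (k + 1))}.Infinite) :
    ∃ V W : Set (Set X), V ⊆ range L ∧ W ⊆ range L ∧ Disjoint V W ∧ IsLarge V ∧ IsLarge W := by
  have huniq : ∀ k k' n, c k ≤ n → n < c (k + 1) → c k' ≤ n → n < c (k' + 1) → k = k' := by
    intro k k' n h1 h2 h3 h4
    have a1 : c k < c (k' + 1) := by omega
    have a2 : c k' < c (k + 1) := by omega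
    rw [hc.lt_iff_lt] at a1 a2
    omega
  have large : ∀ S : Set ℕ, (∀ x, {k | k ∈ S ∧ x ∈ M L (c k) (c (k + 1))}.Infinite) →
      IsLarge (L '' {n | ∃ k ∈ S, c k ≤ n ∧ n < c (k + 1)}) := by
    intro S hS x hfin
    have h1 : (L ⁻¹' {u | u ∈ L '' {n | ∃ k ∈ S, c k ≤ n ∧ n < c (k + 1)} ∧ x ∈ u}).Finite :=
      hfin.preimage hinj.injOn
    obtain ⟨N, hN⟩ := h1.bddAbove
    obtain ⟨k, ⟨hk, n, h2, h3, h4⟩, hkN⟩ := (hS x).exists_gt N
    have h5 : n ≤ N := hN ⟨⟨n, ⟨k, hk, h2, h3⟩, rfl⟩, h4⟩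
    have h6 : k ≤ c k := hc.id_le k
    omega
  refine ⟨_, _, image_subset_range _ _, image_subset_range _ _, ?_, large S hS, large S' hS'⟩
  rw [disjoint_image_iff hinj, Set.disjoint_left]
  rintro n ⟨k, hk, h1, h2⟩ ⟨k', hk', h3, h4⟩
  have := huniq k k' n h1 h2 h3 h4
  subst this
  exact Set.disjoint_left.1 hd hk hk'

/-- thinning out a linear family -/
theorem thin {T : Set (Set X)} (hT : Lin T) (y : ℕ → X) (a : Set X → ℕ)
    (ha : ∀ t ∈ T, y (a t) ∉ t) :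
    ∃ T' ⊆ T, (∀ n, {t | t ∈ T' ∧ a t = n}.Finite) ∧
      ∀ F : Set X, F.Finite → {t | t ∈ T' ∧ F ⊆ t}.Infinite := by
  by_cases h : ∃ z, ∀ n, {t | t ∈ T ∧ z ∈ t ∧ a t = n}.Finite
  · obtain ⟨z, hz⟩ := h
    refine ⟨{t | t ∈ T ∧ z ∈ t}, fun t ht => ht.1, fun n => (hz n).subset ?_, ?_⟩
    · rintro t ⟨⟨h1, h2⟩, h3⟩
      exact ⟨h1, h2, h3⟩
    · intro F hF hfin
      obtain ⟨m, -, hm⟩ := hT.exists_min (hF.insert z) (insert_nonempty _ _)
      apply hT.large m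
      have h1 : (⋃ w ∈ insert z F, {u | u ∈ T ∧ m ∈ u ∧ w ∉ u}).Finite :=
        (hF.insert z).biUnion fun w hw => hm w hw
      refine (hfin.union h1).subset ?_
      rintro u ⟨hu, hmu⟩
      by_cases hall : ∀ w ∈ insert z F, w ∈ u
      · exact Or.inl ⟨⟨hu, hall z (mem_insert _ _)⟩, fun w hw => hall w (mem_insert_of_mem _ hw)⟩
      · right
        push Not at hall
        obtain ⟨w, hw, hwu⟩ := hall
        exact mem_biUnion hw ⟨hu, hmu, hwu⟩
  · push Not at h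
    obtain ⟨V, hVT, hVinf, hV⟩ := hT.exists_pseudo y
    have hall : ∀ z, {v | v ∈ V ∧ z ∉ v}.Finite := by
      intro z
      obtain ⟨n, hn⟩ := h z
      have hle : Le T (y n) z := by
        rcases hT.lin (y n) z with h1 | h1
        · exact h1
        · exfalso
          apply hn
          refine h1.subset ?_
          rintro t ⟨h2, h3, h4⟩
          exact ⟨h2, h3, h4 ▸ ha t h2⟩
      refine ((hV n).union hle).subset ?_
      rintro v ⟨hv, hz⟩
      by_cases hy : y n ∈ v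
      · exact Or.inr ⟨hVT hv, hy, hz⟩
      · exact Or.inl ⟨hv, hy⟩
    refine ⟨V, hVT, fun n => (hV n).subset ?_, ?_⟩
    · rintro t ⟨h1, h2⟩
      exact ⟨h1, h2 ▸ ha t (hVT h1)⟩
    · intro F hF hfin
      apply hVinf
      have h1 : (⋃ w ∈ F, {v | v ∈ V ∧ w ∉ v}).Finite := hF.biUnion fun w _ => hall w
      refine (hfin.union h1).subset ?_
      intro v hv
      by_cases hFv : F ⊆ v
      · exact Or.inl ⟨hv, hFv⟩
      · right
        obtain ⟨w, hw, hwv⟩ := not_subset.1 hFv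
        exact mem_biUnion hw ⟨hv, hwv⟩

theorem exists_seq (g : ℕ → ℕ) (a0 : ℕ) :
    ∃ c : ℕ → ℕ, StrictMono c ∧ c 0 = a0 ∧ ∀ i, g (c i) ≤ c (i + 1) := by
  let c : ℕ → ℕ := fun n => Nat.rec a0 (fun _ w => max (w + 1) (g w)) n
  have hs : ∀ n, c (n + 1) = max (c n + 1) (g (c n)) := fun n => rfl
  refine ⟨c, strictMono_nat_of_lt_succ fun n => ?_, rfl, fun i => ?_⟩
  · rw [hs]; omega
  · rw [hs]; omega

theorem exists_index {c : ℕ → ℕ} (hc : StrictMono c) {n : ℕ} (h : c 0 ≤ n) :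
    ∃ i, c i ≤ n ∧ n < c (i + 1) := by
  classical
  have hex : ∃ i, n < c (i + 1) := ⟨n, lt_of_lt_of_le (Nat.lt_succ_self n) (hc.id_le (n + 1))⟩
  refine ⟨Nat.find hex, ?_, Nat.find_spec hex⟩
  rcases h0 : Nat.find hex with _ | k
  · exact h
  · have := Nat.find_min hex (m := k) (by omega)
    omega

theorem seq_split [TopologicalSpace X] [T1Space X]
    (h : SplitP (OmegaOf (OpenFam X)) (TauOf (OpenFam X)))
    {L : ℕ → Set X} (hinj : Function.Injective L) (hopen : ∀ n, IsOpen (L n))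
    (hL : ∀ x, {n | x ∈ L n}.Infinite) :
    ∃ V W : Set (Set X), V ⊆ range L ∧ W ⊆ range L ∧ Disjoint V W ∧ IsLarge V ∧ IsLarge W := by
  classical
  by_cases hA : ∀ a, ∃ b, M L a b = univ
  · choose g hg using hA
    obtain ⟨c, hc, -, hcg⟩ := exists_seq g 0
    have hu : ∀ k x, x ∈ M L (c k) (c (k + 1)) := fun k x =>
      M_mono L le_rfl (hcg k) (by rw [hg]; trivial)
    refine group hinj hc (S := range fun k => 2 * k) (S' := range fun k => 2 * k + 1) ?_ ?_ ?_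
    · rw [Set.disjoint_left]
      rintro _ ⟨k, rfl⟩ ⟨k', hk⟩
      simp only at hk
      omega
    · intro x
      refine (infinite_range_of_injective (f := fun k => 2 * k) ?_).mono fun k hk => ⟨hk, hu k x⟩
      intro k k' hk
      simp only at hk
      omega
    · intro x
      refine (infinite_range_of_injective (f := fun k => 2 * k + 1) ?_).mono
        fun k hk => ⟨hk, hu k x⟩
      intro k k' hk
      simp only at hk
      omega
  push Not at hA
  obtain ⟨a0, ha0⟩ := hA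
  have hXinf : Infinite X := by
    by_contra hfin
    rw [not_infinite_iff_finite] at hfin
    obtain ⟨b, hb⟩ := M_finite hL a0 (F := univ) finite_univ
    exact ha0 b (univ_subset_iff.1 hb)
  let y : ℕ ↪ X := Infinite.natEmbedding X
  -- the omega cover
  let U : Set (Set X) := {u | ∃ a b, a0 ≤ a ∧ u = M L a b \ {y a}}
  have hUF : ∀ F : Set X, F.Finite → ∃ u ∈ U, F ⊆ u := by
    intro F hF
    have h1 : (y ⁻¹' F).Finite := hF.preimage y.injective.injOn
    obtain ⟨N, hN⟩ := h1.bddAbove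
    obtain ⟨b, hb⟩ := M_finite hL (max a0 (N + 1)) hF
    refine ⟨_, ⟨max a0 (N + 1), b, le_max_left _ _, rfl⟩, fun x hx => ⟨hb hx, ?_⟩⟩
    rintro rfl
    have := hN hx
    omega
  have hU : U ∈ OmegaOf (OpenFam X) := by
    refine ⟨?_, ⟨?_, ?_⟩, hUF⟩
    · rintro _ ⟨a, b, -, rfl⟩
      exact (M_open hopen a b).sdiff isClosed_singleton
    · rw [eq_univ_iff_forall]
      intro x
      obtain ⟨u, hu, hx⟩ := hUF {x} (finite_singleton x)
      exact ⟨u, hu, hx rfl⟩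
    · rintro ⟨a, b, -, hab⟩
      have : y a ∈ M L a b \ {y a} := hab ▸ mem_univ _
      exact this.2 rfl
  obtain ⟨V0, W0, hVW0, -, ⟨T, hTV, hT⟩, -⟩ := h U hU
  have hTU : T ⊆ U := hTV.trans (hVW0 ▸ subset_union_left)
  have hch : ∀ t : Set X, ∃ a b, t ∈ T → a0 ≤ a ∧ t = M L a b \ {y a} := by
    intro t
    by_cases ht : t ∈ T
    · obtain ⟨a, b, h1, h2⟩ := hTU ht
      exact ⟨a, b, fun _ => ⟨h1, h2⟩⟩
    · exact ⟨0, 0, fun h => absurd h ht⟩
  choose a b hab using hch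
  obtain ⟨T', hT'T, hfib, hT'⟩ := thin (tau_iff.1 hT).2.2 y a (fun t ht hy =>
    ((hab t ht).2.subset hy).2 rfl)
  have hbd : ∀ n, ∃ β, ∀ t ∈ T', a t ≤ n → b t ≤ β := by
    intro n
    have h1 : (⋃ m ∈ {m | m ≤ n}, {t | t ∈ T' ∧ a t = m}).Finite :=
      (finite_le_nat n).biUnion fun m _ => hfib m
    obtain ⟨β, hβ⟩ := (h1.image b).bddAbove
    exact ⟨β, fun t ht hn => hβ ⟨t, mem_biUnion (x := a t) hn ⟨ht, rfl⟩, rfl⟩⟩
  choose β hβ using hbd
  obtain ⟨c, hc, hc0, hcβ⟩ := exists_seq β a0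
  have hI : ∀ F : Set X, F.Finite → ∃ i, F ⊆ M L (c i) (c (i + 2)) := by
    intro F hF
    obtain ⟨t, ht, hFt⟩ := (hT' F hF).nonempty
    obtain ⟨h1, h2⟩ := hab t (hT'T ht)
    obtain ⟨i, hi1, hi2⟩ := exists_index hc (n := a t) (hc0 ▸ h1)
    exact ⟨i, hFt.trans (h2.subset.trans (sdiff_subset.trans
      (M_mono L hi1 ((hβ _ t ht hi2.le).trans (hcβ (i + 1))))))⟩
  have hr : ∃ r, ∀ F : Set X, F.Finite → ∃ k, F ⊆ M L (c (2 * k + r)) (c (2 * (k + 1) + r)) := by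
    by_contra hcon
    push Not at hcon
    obtain ⟨F0, hF0, h0⟩ := hcon 0
    obtain ⟨F1, hF1, h1⟩ := hcon 1
    obtain ⟨i, hi⟩ := hI (F0 ∪ F1) (hF0.union hF1)
    obtain ⟨k, hk | hk⟩ := Nat.even_or_odd' i
    · apply h0 k
      have e : 2 * (k + 1) + 0 = i + 2 := by omega
      have e' : 2 * k + 0 = i := by omega
      rw [e, e']
      exact subset_union_left.trans hi
    · apply h1 k
      have e : 2 * (k + 1) + 1 = i + 2 := by omega
      rw [e, ← hk]
      exact subset_union_right.trans hi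
  obtain ⟨r, hr⟩ := hr
  let c' : ℕ → ℕ := fun k => c (2 * k + r)
  have hc' : StrictMono c' := fun k k' hk => hc (by omega)
  let N : ℕ → Set X := fun k => M L (c' k) (c' (k + 1))
  have hN : range N ∈ OmegaOf (OpenFam X) := by
    refine ⟨?_, ⟨?_, ?_⟩, ?_⟩
    · rintro _ ⟨k, rfl⟩
      exact M_open hopen _ _
    · rw [eq_univ_iff_forall]
      intro x
      obtain ⟨k, hk⟩ := hr {x} (finite_singleton x)
      exact ⟨N k, ⟨k, rfl⟩, hk rfl⟩
    · rintro ⟨k, hk⟩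
      apply ha0 (c' (k + 1))
      refine univ_subset_iff.1 (hk.symm.subset.trans (M_mono L ?_ le_rfl))
      rw [← hc0]
      exact hc.monotone (Nat.zero_le _)
    · intro F hF
      obtain ⟨k, hk⟩ := hr F hF
      exact ⟨N k, ⟨k, rfl⟩, hk⟩
  obtain ⟨V, W, hVW, hd, ⟨V', hV', hV''⟩, ⟨W', hW', hW''⟩⟩ := h _ hN
  have pull : ∀ V V' : Set (Set X), V ⊆ range N → V' ⊆ V → V' ∈ TauOf (OpenFam X) →
      ∀ x, {k | k ∈ N ⁻¹' V ∧ x ∈ M L (c' k) (c' (k + 1))}.Infinite := by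
    intro V V' h1 h2 h3 x hfin
    apply h3.2.2.1 x
    refine (hfin.image N).subset ?_
    rintro u ⟨hu, hx⟩
    obtain ⟨k, rfl⟩ := h1 (h2 hu)
    exact ⟨k, ⟨h2 hu, hx⟩, rfl⟩
  exact group hinj hc' (hd.preimage N) (pull V V' (hVW ▸ subset_union_left) hV' hV'')
    (pull W W' (hVW ▸ subset_union_right) hW' hW'')

theorem main [TopologicalSpace X] [T1Space X] [SecondCountableTopology X]
    (h : SplitP (OmegaOf (OpenFam X)) (TauOf (OpenFam X)))
    {U : Set (Set X)} (hopen : ∀ u ∈ U, IsOpen u) (hU : IsLarge U) :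
    ∃ V W : Set (Set X), V ⊆ U ∧ W ⊆ U ∧ Disjoint V W ∧ IsLarge V ∧ IsLarge W := by
  rcases isEmpty_or_nonempty X with hX | ⟨⟨x0⟩⟩
  · exact ⟨∅, ∅, empty_subset _, empty_subset _, disjoint_empty _, fun x => isEmptyElim x,
      fun x => isEmptyElim x⟩
  obtain ⟨U0, hU0, hc, hl⟩ := exists_countable_large hopen hU
  have hinf : U0.Infinite := (hl x0).mono fun u hu => hu.1
  have : Countable U0 := hc.to_subtype
  have : Infinite U0 := hinf.to_subtype
  obtain ⟨e⟩ : Nonempty (ℕ ≃ U0) := nonempty_equiv_of_countable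
  let L : ℕ → Set X := fun n => (e n).1
  have hinj : Function.Injective L := Subtype.val_injective.comp e.injective
  have hr : range L ⊆ U0 := by
    rintro _ ⟨n, rfl⟩
    exact (e n).2
  obtain ⟨V, W, h1, h2, h3, h4, h5⟩ := seq_split h hinj (fun n => hopen _ (hU0 (e n).2)) (by
    intro x hfin
    apply hl x
    refine (hfin.image L).subset ?_
    rintro u ⟨hu, hx⟩
    refine ⟨e.symm ⟨u, hu⟩, ?_, ?_⟩
    · simpa [L] using hx
    · simp [L])
  exact ⟨V, W, h1.trans (hr.trans hU0), h2.trans (hr.trans hU0), h3, h4, h5⟩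

end Pool.Agent.H224Z.SplitL
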