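import Pool.Agent.H224Z.NotHur

/-!
Synchronised conditions: the combinatorial part.
-/

set_option autoImplicit false

namespace Pool.Agent.H224Z.Sync

open Set

abbrev Pt := ℕ → List Bool

def col (a : ℕ) : ℕ := (Nat.unpair a).1

structure Cond where
  l : ℕ → ℕ
  r : Pt

def Valid (p : Cond) : Prop :=
  (∀ n, {a | p.l a ≤ n}.Finite) ∧ ∀ a, (p.r a).length + p.l a ≤ a + 1

def CLe (q p : Cond) : Prop := ∃ (N : ℕ) (w : Pt),
  (∀ a, N ≤ a → q.r a = p.r a ++ w a ∧ (w a).length + q.l a ≤ p.l a) ∧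
  ∀ a b, N ≤ a → N ≤ b → p.l a = p.l b →
    q.l a = q.l b ∧ (min (col a) (p.l a) = min (col b) (p.l b) → w a = w b)

theorem CLe.refl (p : Cond) : CLe p p :=
  ⟨0, fun _ => [], fun a _ => by simp, fun a b _ _ h => ⟨h, fun _ => rfl⟩⟩

theorem CLe.trans {s q p : Cond} (h : CLe s q) (h' : CLe q p) : CLe s p := by
  obtain ⟨N, w, h1, h2⟩ := h
  obtain ⟨M, v, g1, g2⟩ := h'
  refine ⟨max N M, fun a => v a ++ w a, fun a ha => ?_, fun a b ha hb hab => ?_⟩
  · obtain ⟨h3, h4⟩ := h1 a (le_of_max_le_left ha)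
    obtain ⟨g3, g4⟩ := g1 a (le_of_max_le_right ha)
    refine ⟨by rw [h3, g3, List.append_assoc], ?_⟩
    rw [List.length_append]
    omega
  · obtain ⟨g3, g4⟩ := g2 a b (le_of_max_le_right ha) (le_of_max_le_right hb) hab
    obtain ⟨h3, h4⟩ := h2 a b (le_of_max_le_left ha) (le_of_max_le_left hb) g3
    refine ⟨h3, fun h => ?_⟩
    have e1 := (g1 a (le_of_max_le_right ha)).2
    have e2 := (g1 b (le_of_max_le_right hb)).2
    simp only
    rw [g4 h, h4 (by omega)]

theorem bound_of_finite {D : Set ℕ} (hD : D.Finite) (f : ℕ → ℕ) : ∃ M, ∀ a ∈ D, f a < M := by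
  obtain ⟨M, hM⟩ := (hD.image f).bddAbove
  exact ⟨M + 1, fun a ha => Nat.lt_succ_of_le (hM ⟨a, ha, rfl⟩)⟩

theorem lower (P : ℕ → Cond) (hv : ∀ n, Valid (P n)) (hle : ∀ j i, j ≤ i → CLe (P i) (P j)) :
    ∃ q, Valid q ∧ ∀ j, CLe q (P j) := by
  classical
  have h0 : ∀ j i, ∃ (N : ℕ) (w : Pt), j ≤ i →
      (∀ a, N ≤ a → (P i).r a = (P j).r a ++ w a ∧ (w a).length + (P i).l a ≤ (P j).l a) ∧
      ∀ a b, N ≤ a → N ≤ b → (P j).l a = (P j).l b → (P i).l a = (P i).l b ∧
        (min (col a) ((P j).l a) = min (col b) ((P j).l b) → w a = w b) := by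
    intro j i
    by_cases h : j ≤ i
    · obtain ⟨N, w, h1⟩ := hle j i h
      exact ⟨N, w, fun _ => h1⟩
    · exact ⟨0, fun _ => [], fun h' => absurd h' h⟩
  choose N w hN using h0
  have h1 : ∀ i, ∃ M, i ≤ M ∧ (∀ a < i, (P i).l a < M) ∧
      ∀ j ≤ i, ∀ a b, a < N j i → (P j).l a = (P j).l b → (P i).l b < M := by
    intro i
    have hf : ({a | a < i} ∪ ⋃ j ∈ {j | j ≤ i}, ⋃ a ∈ {a | a < N j i},
        {b | (P j).l b ≤ (P j).l a}).Finite :=
      (finite_lt_nat i).union ((finite_le_nat i).biUnion fun j _ =>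
        (finite_lt_nat _).biUnion fun a _ => (hv j).1 _)
    obtain ⟨M, hM⟩ := bound_of_finite hf (P i).l
    refine ⟨max i M, le_max_left _ _, fun a ha => lt_max_of_lt_right (hM a (Or.inl ha)),
      fun j hj a b ha hab => lt_max_of_lt_right (hM b (Or.inr ?_))⟩
    exact mem_biUnion (x := j) hj (mem_biUnion (x := a) ha hab.ge)
  choose M hM1 hM2 hM3 using h1
  have hex : ∀ a, ∃ i, (P (i + 1)).l a < M (i + 1) := fun a => ⟨a, hM2 _ a (Nat.lt_succ_self a)⟩
  let ι : ℕ → ℕ := fun a => Nat.find (hex a)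
  have hι1 : ∀ a, (P (ι a + 1)).l a < M (ι a + 1) := fun a => Nat.find_spec (hex a)
  have hι2 : ∀ a i, i < ι a → M (i + 1) ≤ (P (i + 1)).l a := fun a i hi =>
    not_lt.1 (Nat.find_min (hex a) hi)
  have hι3 : ∀ a, 0 < ι a → M (ι a) ≤ (P (ι a)).l a := by
    intro a ha
    have := hι2 a (ι a - 1) (by omega)
    rwa [Nat.sub_add_cancel ha] at this
  have hfin : ∀ n, {a | ι a ≤ n}.Finite := by
    intro n
    refine ((finite_le_nat n).biUnion fun i _ => (hv (i + 1)).1 (M (i + 1))).subset ?_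
    intro a ha
    exact mem_biUnion (x := ι a) ha (hι1 a).le
  refine ⟨⟨fun a => (P (ι a)).l a, fun a => (P (ι a)).r a⟩, ⟨fun n => ?_, fun a => (hv _).2 a⟩,
    fun j => ?_⟩
  · refine (hfin n).subset ?_
    intro a ha
    by_contra h
    have h2 : n < ι a := not_le.1 h
    have h3 := hι3 a (by omega)
    have h4 := hM1 (ι a)
    have h5 : (P (ι a)).l a ≤ n := ha
    omega
  · obtain ⟨K, hK⟩ := bound_of_finite (hfin j) id
    have hK' : ∀ a, K ≤ a → j < ι a := by
      intro a ha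
      by_contra h
      have := hK a (not_lt.1 h)
      simp only [id] at this
      omega
    have hNa : ∀ a, K ≤ a → N j (ι a) ≤ a := by
      intro a ha
      by_contra h
      have h2 := hK' a ha
      have h3 := hM3 (ι a) j h2.le a a (not_le.1 h) rfl
      have h4 := hι3 a (by omega)
      omega
    have hle' : ∀ a b, K ≤ a → (P j).l a = (P j).l b → ι b ≤ ι a := by
      intro a b ha hab
      apply Nat.find_min'
      have h2 := hK' a ha
      by_cases h3 : a < N j (ι a + 1)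
      · exact hM3 _ j (by omega) a b h3 hab
      by_cases h4 : b < N j (ι a + 1)
      · exact hM3 _ j (by omega) b b h4 rfl
      rw [← ((hN j (ι a + 1) (by omega)).2 a b (not_lt.1 h3) (not_lt.1 h4) hab).1]
      exact hι1 a
    refine ⟨K, fun a => w j (ι a) a, fun a ha => (hN j (ι a) (hK' a ha).le).1 a (hNa a ha),
      fun a b ha hb hab => ?_⟩
    have he : ι a = ι b := le_antisymm (hle' b a hb hab.symm) (hle' a b ha hab)
    have h2 := (hN j (ι a) (hK' a ha).le).2 a b (hNa a ha) (he ▸ hNa b hb) hab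
    simp only
    rw [← he]
    exact h2

def OpP (U : Set Pt) : Prop := ∀ y ∈ U, ∃ M : ℕ, ∀ y' : Pt, (∀ a < M, y' a = y a) → y' ∈ U

def InY (y : Pt) : Prop := ∀ a, (y a).length ≤ a + 1

def Below (y : Pt) (p : Cond) : Prop := CLe ⟨fun _ => 0, y⟩ p

def Task (q : Cond) (X0 : Set Pt) (U : ℕ → ℕ → Set Pt) : Prop :=
  (∃ y, (y ∈ X0 ∨ y = q.r) ∧ ∃ i, {k | y ∉ U i k}.Infinite) ∨
  ∃ k : ℕ → ℕ, ∀ y, (y ∈ X0 ∨ (InY y ∧ Below y q)) → {i | y ∉ U i (k i)}.Finite

theorem finite_box {D : Set ℕ} (hD : D.Finite) (b : ℕ → ℕ) :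
    {s : Pt | (∀ a ∈ D, (s a).length ≤ b a) ∧ ∀ a, a ∉ D → s a = []}.Finite := by
  have := hD.to_subtype
  have h1 : {t : D → List Bool | ∀ a : D, t a ∈ {l : List Bool | l.length ≤ b a}}.Finite :=
    Finite.pi' fun a : D => List.finite_length_le Bool (b a)
  refine Finite.of_finite_image (f := fun (s : Pt) (a : D) => s a) (h1.subset ?_) ?_
  · rintro _ ⟨s, hs, rfl⟩ a
    exact hs.1 a a.2
  · intro s hs t ht h
    funext a
    by_cases ha : a ∈ D
    · exact congrFun h ⟨a, ha⟩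
    · rw [hs.2 a ha, ht.2 a ha]

/-- the test points -/
def Test (p : Cond) (N i : ℕ) : Set Pt :=
  {e | InY e ∧ ∃ W : Pt, (∀ m, (W m).length ≤ i) ∧
    ∀ a, N ≤ p.l a → e a = p.r a ++ W (min (col a) i)}

theorem finite_test {p : Cond} (hp : Valid p) (N i : ℕ) : (Test p N i).Finite := by
  classical
  have h1 := (finite_box (hp.1 N) (fun a => a + 1)).prod (finite_box (finite_le_nat i) (fun _ => i))
  refine (h1.image fun z a => if N ≤ p.l a then p.r a ++ z.2 (min (col a) i) else z.1 a).subset ?_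
  rintro e ⟨he, W, hW, hW'⟩
  refine ⟨(fun a => if p.l a ≤ N then e a else [], fun m => if m ≤ i then W m else []),
    ⟨⟨fun a ha => ?_, fun a ha => ?_⟩, fun m hm => ?_, fun m hm => ?_⟩, ?_⟩
  · have ha' : p.l a ≤ N := ha
    simpa [ha'] using he a
  · have ha' : ¬ p.l a ≤ N := ha
    simp [ha']
  · have hm' : m ≤ i := hm
    simpa [hm'] using hW m
  · have hm' : ¬ m ≤ i := hm
    simp [hm']
  · funext a
    by_cases h : N ≤ p.l a
    · simp [h, hW' a h]
    · have h' : p.l a ≤ N := by omega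
      simp [h, h']

theorem test_root {p : Cond} (hp : Valid p) {N i : ℕ} (hi : i ≤ N) {e : Pt}
    (he : e ∈ Test p N i) : ∃ q, Valid q ∧ CLe q p ∧ q.r = e := by
  classical
  obtain ⟨h1, W, hW, hW'⟩ := he
  obtain ⟨K, hK⟩ := bound_of_finite (hp.1 N) id
  have hK' : ∀ a, K ≤ a → N ≤ p.l a := by
    intro a ha
    by_contra h
    have := hK a (show p.l a ≤ N by omega)
    simp only [id] at this
    omega
  refine ⟨⟨fun a => if N ≤ p.l a then p.l a - i else 0, e⟩, ⟨fun n => ?_, fun a => ?_⟩,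
    ⟨K, fun a => W (min (col a) i), fun a ha => ⟨hW' a (hK' a ha), ?_⟩,
      fun a b ha hb hab => ⟨?_, fun h => ?_⟩⟩, rfl⟩
  · refine (hp.1 (n + N)).subset ?_
    intro a ha
    simp only [mem_ofPred_eq] at ha ⊢
    split_ifs at ha <;> omega
  · simp only
    split_ifs with h
    · rw [hW' a h, List.length_append]
      have := hW (min (col a) i)
      have := hp.2 a
      omega
    · exact h1 a
  · have h2 := hK' a ha
    have := hW (min (col a) i)
    simp only [h2, if_true]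
    omega
  · simp only [hab]
  · have h2 := hK' a ha
    have h3 := hK' b hb
    have : min (col a) i = min (col b) i := by omega
    simp only [this]

theorem exists_seq2 (g : ℕ → ℕ → ℕ) :
    ∃ c : ℕ → ℕ, StrictMono c ∧ c 0 = 0 ∧ ∀ i, g i (c i) ≤ c (i + 1) := by
  let c : ℕ → ℕ := fun n => Nat.rec 0 (fun i w => max (w + 1) (g i w)) n
  have hs : ∀ n, c (n + 1) = max (c n + 1) (g n (c n)) := fun n => rfl
  refine ⟨c, strictMono_nat_of_lt_succ fun n => ?_, rfl, fun i => ?_⟩
  · rw [hs]; omega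
  · rw [hs]; omega

theorem step {p : Cond} (hp : Valid p) {X0 : Set Pt} (hX0 : X0.Countable)
    {U : ℕ → ℕ → Set Pt} (hU : ∀ i k, OpP (U i k)) :
    ∃ q, Valid q ∧ CLe q p ∧ Task q X0 U := by
  classical
  by_cases hA : ∃ q, Valid q ∧ CLe q p ∧ ∃ i, {k | q.r ∉ U i k}.Infinite
  · obtain ⟨q, h1, h2, h3⟩ := hA
    exact ⟨q, h1, h2, Or.inl ⟨q.r, Or.inr rfl, h3⟩⟩
  by_cases hB : ∃ y ∈ X0, ∃ i, {k | y ∉ U i k}.Infinite
  · obtain ⟨y, h1, h2⟩ := hB
    exact ⟨p, hp, CLe.refl p, Or.inl ⟨y, Or.inl h1, h2⟩⟩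
  push Not at hA hB
  obtain ⟨z, hz⟩ := countable_iff_exists_injOn.1 hX0
  have hzf : ∀ i, {y | y ∈ X0 ∧ z y ≤ i}.Finite := fun i =>
    Finite.of_finite_image ((finite_le_nat i).subset (by
      rintro _ ⟨y, hy, rfl⟩
      exact hy.2)) (hz.mono fun y hy => hy.1)
  have key : ∀ i N, ∃ k N', i ≤ N → (∀ y ∈ X0, z y ≤ i → y ∈ U i k) ∧
      ∀ e ∈ Test p N i, ∀ y : Pt, (∀ a, p.l a < N' → y a = e a) → y ∈ U i k := by
    intro i N
    by_cases hi : i ≤ N
    swap
    · exact ⟨0, 0, fun h => absurd h hi⟩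
    have h1 : (⋃ y ∈ {y | y ∈ X0 ∧ z y ≤ i} ∪ Test p N i, {k | y ∉ U i k}).Finite := by
      refine ((hzf i).union (finite_test hp N i)).biUnion ?_
      rintro y (hy | hy)
      · exact hB y hy.1 i
      · obtain ⟨q, h1, h2, rfl⟩ := test_root hp hi hy
        exact hA q h1 h2 i
    obtain ⟨k, -, hk⟩ := infinite_univ.exists_notMem_finite h1
    have hk' : ∀ y ∈ {y | y ∈ X0 ∧ z y ≤ i} ∪ Test p N i, y ∈ U i k := by
      intro y hy
      by_contra h
      exact hk (mem_biUnion hy h)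
    have h2 : ∀ e : Pt, ∃ M : ℕ, e ∈ Test p N i →
        ∀ y' : Pt, (∀ a < M, y' a = e a) → y' ∈ U i k := by
      intro e
      by_cases he : e ∈ Test p N i
      · obtain ⟨M, hM⟩ := hU i k e (hk' e (Or.inr he))
        exact ⟨M, fun _ => hM⟩
      · exact ⟨0, fun h => absurd h he⟩
    choose M hM using h2
    obtain ⟨M0, hM0⟩ := ((finite_test hp N i).image M).bddAbove
    obtain ⟨N', hN'⟩ := bound_of_finite (finite_lt_nat M0) p.l
    refine ⟨k, N', fun _ => ⟨fun y hy hzy => hk' y (Or.inl ⟨hy, hzy⟩), fun e he y hy => ?_⟩⟩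
    refine hM e he y fun a ha => hy a (hN' a ?_)
    exact ha.trans_le (hM0 ⟨e, he, rfl⟩)
  choose k N' hkey using key
  obtain ⟨c, hc, hc0, hcN⟩ := exists_seq2 N'
  choose φ hφ1 hφ2 using fun l => SplitL.exists_index hc (n := l) (by omega)
  have hci : ∀ i, i ≤ c i := fun i => hc.id_le i
  have hφ3 : ∀ l i, c i ≤ l → l < c (i + 1) → φ l = i := by
    intro l i h1 h2
    have h3 := hc.lt_iff_lt.1 (h1.trans_lt (hφ2 l))
    have h4 := hc.lt_iff_lt.1 ((hφ1 l).trans_lt h2)
    omega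
  have hφ4 : ∀ l, φ l ≤ l := fun l => (hci _).trans (hφ1 l)
  refine ⟨⟨fun a => φ (p.l a), p.r⟩, ⟨fun n => ?_, fun a => ?_⟩,
    ⟨0, fun _ => [], fun a _ => ⟨by simp, by simpa using hφ4 _⟩,
      fun a b _ _ hab => ⟨by simp only [hab], fun _ => rfl⟩⟩,
    Or.inr ⟨fun i => k i (c i), ?_⟩⟩
  · refine (hp.1 (c (n + 1))).subset ?_
    intro a ha
    have h1 : φ (p.l a) ≤ n := ha
    exact (hφ2 _).le.trans (hc.monotone (by omega))
  · have := hp.2 a
    have := hφ4 (p.l a)
    simp only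
    omega
  · rintro y (hy | ⟨hy, K, w, h1, h2⟩)
    · refine (finite_lt_nat (z y)).subset ?_
      intro i hi
      by_contra h
      exact hi ((hkey i (c i) (hci i)).1 y hy (not_lt.1 h))
    · obtain ⟨L, hL⟩ := bound_of_finite (finite_lt_nat K) p.l
      refine (finite_lt_nat L).subset ?_
      intro i hi
      by_contra h
      have hiL : L ≤ i := not_lt.1 h
      have hK : ∀ a, c i ≤ p.l a → K ≤ a := by
        intro a ha
        by_contra h3
        have := hL a (not_le.1 h3)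
        have := hci i
        omega
      have hW : ∀ m, ∃ v : List Bool, v.length ≤ i ∧ ∀ a, c i ≤ p.l a → p.l a < c (i + 1) →
          min (col a) i = m → w a = v := by
        intro m
        by_cases hm : ∃ a, c i ≤ p.l a ∧ p.l a < c (i + 1) ∧ min (col a) i = m
        · obtain ⟨a, g1, g2, g3⟩ := hm
          have g4 := hφ3 _ i g1 g2
          refine ⟨w a, ?_, fun b f1 f2 f3 => ?_⟩
          · have := (h1 a (hK a g1)).2
            simp only [g4] at this
            omega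
          · have f4 := hφ3 _ i f1 f2
            refine (h2 b a (hK b f1) (hK a g1) ?_).2 ?_
            · simp only [g4, f4]
            · simp only [g4, f4, g3, f3]
        · exact ⟨[], by simp, fun a g1 g2 g3 => absurd ⟨a, g1, g2, g3⟩ hm⟩
      choose W hW1 hW2 using hW
      apply hi
      refine (hkey i (c i) (hci i)).2
        (fun a => if c i ≤ p.l a then p.r a ++ W (min (col a) i) else y a)
        ⟨fun a => ?_, W, hW1, fun a ha => by simp only [ha, if_true]⟩ y fun a ha => ?_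
      · simp only
        split_ifs with h3
        · rw [List.length_append]
          have := hW1 (min (col a) i)
          have := hp.2 a
          have := hci i
          omega
        · exact hy a
      · split_ifs with h3
        · rw [← hW2 _ a h3 (ha.trans_le (hcN i)) rfl]
          exact (h1 a (hK a h3)).1
        · rfl

def PairP (p : Cond) (f : ℕ → ℕ) (x : Bool → Pt) : Prop :=
  (∀ b, InY (x b) ∧ Below (x b) p ∧ ∀ n, {a | col a = n ∧ x b a ≠ p.r a}.Finite) ∧
  ∀ a, a ≤ f (col a) → ∀ t, ¬ (x false a <+: t ∧ x true a <+: t)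

theorem not_both (s t : List Bool) : ¬ (s ++ [false] <+: t ∧ s ++ [true] <+: t) := by
  rintro ⟨h1, h2⟩
  have h3 := List.prefix_of_prefix_length_le h1 h2 (by simp)
  have h4 := h3.eq_of_length (by simp)
  simp at h4

theorem pair {p : Cond} (hp : Valid p) (f : ℕ → ℕ) : ∃ x, PairP p f x := by
  classical
  let S : Set ℕ := {a | ∃ a', a' ≤ f (col a') ∧ p.l a = p.l a' ∧
    min (col a) (p.l a) = min (col a') (p.l a')}
  obtain ⟨K, hK⟩ := bound_of_finite (hp.1 0) id
  have hK' : ∀ a, K ≤ a → p.l a ≠ 0 := by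
    intro a ha h
    have := hK a h.le
    simp only [id] at this
    omega
  refine ⟨fun b a => if p.l a = 0 then [b] else if a ∈ S then p.r a ++ [b] else p.r a,
    fun b => ⟨fun a => ?_, ⟨K, fun a => if a ∈ S then [b] else [], fun a ha => ?_,
      fun a a' ha ha' h => ⟨rfl, fun h' => ?_⟩⟩, fun n => ?_⟩, fun a ha t => ?_⟩
  · have := hp.2 a
    simp only
    split_ifs
    · simp
    · rw [List.length_append, List.length_singleton]
      omega
    · omega
  · have := hK' a ha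
    simp only [this, if_false]
    split_ifs
    · exact ⟨rfl, by simp; omega⟩
    · simp
  · have : a ∈ S ↔ a' ∈ S := by
      constructor
      · rintro ⟨a2, g1, g2, g3⟩
        exact ⟨a2, g1, h.symm.trans g2, h'.symm.trans g3⟩
      · rintro ⟨a2, g1, g2, g3⟩
        exact ⟨a2, g1, h.trans g2, h'.trans g3⟩
    simp only [this]
  · obtain ⟨L, hL⟩ := bound_of_finite (finite_le_nat (f n)) p.l
    refine (hp.1 (max n L)).subset ?_
    rintro a ⟨h1, h2⟩
    change p.l a ≤ max n L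
    by_contra h3
    have h4 : p.l a ≠ 0 := by omega
    simp only [h4, if_false] at h2
    split_ifs at h2 with h5
    · obtain ⟨a2, g1, g2, g3⟩ := h5
      have g4 : col a2 = n := by omega
      rw [g4] at g1
      have := hL a2 g1
      omega
    · exact h2 rfl
  · have hS : a ∈ S := ⟨a, ha, rfl, rfl⟩
    simp only [hS, if_true]
    split_ifs
    · exact not_both [] t
    · exact not_both _ t

end Pool.Agent.H224Z.Sync
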