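import Pool.Agent.H224Z.Sync1

/-!
Synchronised conditions: the transfinite construction.
-/

set_option autoImplicit false
set_option linter.unusedSectionVars false

namespace Pool.Agent.H224Z.Sync

open Set Pool.Agent.Helper185.Sel Pool.Agent.H224Z.SfinTau
open Pool.Agent.Helper185.Silver Pool.Agent.Helper185.Blk

abbrev Dat := Cond × (Bool → Pt)

def pts (d : Dat) : Set Pt := {y | y = d.1.r ∨ ∃ b, y = d.2 b}

theorem finite_pts (d : Dat) : (pts d).Finite := by
  refine ((finite_singleton d.1.r).union (finite_range d.2)).subset ?_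
  rintro y (h | ⟨b, h⟩)
  · exact Or.inl h
  · exact Or.inr ⟨b, h.symm⟩

def top : Cond := ⟨id, fun _ => []⟩

theorem valid_top : Valid top := ⟨fun n => finite_le_nat n, fun a => by simp [top]⟩

section Rec

variable {I : Type} [LinearOrder I] [WellFoundedLT I]

theorem exists_lower {i : I} (hI : (Iio i).Countable) (prev : (j : I) → j < i → Cond)
    (hbl : ∀ j h, Valid (prev j h))
    (hchain : ∀ (j k : I) (hj : j < i) (hk : k < i), j < k → CLe (prev k hk) (prev j hj)) :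
    ∃ p, Valid p ∧ ∀ j h, CLe p (prev j h) := by
  classical
  have : Countable (Iio i) := hI.to_subtype
  rcases isEmpty_or_nonempty (Iio i) with he | hne
  · exact ⟨top, valid_top, fun j h => (he.false ⟨j, h⟩).elim⟩
  · obtain ⟨e, he⟩ := exists_surjective_nat (Iio i)
    have hch : ∀ a b : Iio i, a ≤ b → CLe (prev b.1 b.2) (prev a.1 a.2) := by
      intro a b hab
      rcases eq_or_lt_of_le hab with h | h
      · subst h
        exact CLe.refl _
      · exact hchain a.1 b.1 a.2 b.2 h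
    obtain ⟨p, hp1, hp2⟩ := lower (fun n => prev (partialSups e n).1 (partialSups e n).2)
      (fun n => hbl _ _) (fun m n hmn => hch _ _ ((partialSups e).monotone hmn))
    refine ⟨p, hp1, fun j h => ?_⟩
    obtain ⟨n, hn⟩ := he ⟨j, h⟩
    refine (hp2 n).trans ?_
    have h1 := hch (e n) (partialSups e n) (le_partialSups e n)
    rw [hn] at h1
    exact h1

def old (i : I) (prev : (j : I) → j < i → Dat) : Set Pt := {y | ∃ j h, y ∈ pts (prev j h)}

theorem countable_old {i : I} (hI : (Iio i).Countable) (prev : (j : I) → j < i → Dat) :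
    (old i prev).Countable := by
  have : Countable (Iio i) := hI.to_subtype
  have h1 : old i prev ⊆ ⋃ j : Iio i, pts (prev j.1 j.2) := by
    rintro z ⟨j, h, hz⟩
    exact mem_iUnion.2 ⟨⟨j, h⟩, hz⟩
  exact (countable_iUnion (fun j => (finite_pts _).countable)).mono h1

def Rq (f : I → ℕ → ℕ) (U : I → ℕ → ℕ → Set Pt) (i : I) (prev : (j : I) → j < i → Dat)
    (d : Dat) : Prop :=
  Valid d.1 ∧ (∀ (j : I) (h : j < i), CLe d.1 (prev j h).1) ∧ Task d.1 (old i prev) (U i) ∧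
    PairP d.1 (f i) d.2

theorem exists_tw (hI : ∀ i : I, (Iio i).Countable) (f : I → ℕ → ℕ)
    (U : I → ℕ → ℕ → Set Pt) (hU : ∀ i n k, OpP (U i n k)) :
    ∃ d : I → Dat, ∀ i, Rq f U i (fun j _ => d j) (d i) := by
  classical
  let st : (i : I) → ((j : I) → j < i → Dat) → Dat := fun i prev =>
    if h : ∃ q, Rq f U i prev q then h.choose else (top, fun _ _ => [])
  let p : I → Dat := WellFounded.fix (wellFounded_lt (α := I)) st
  have hp : ∀ i, p i = st i (fun j _ => p j) := fun i =>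
    WellFounded.fix_eq (wellFounded_lt (α := I)) st i
  refine ⟨p, ?_⟩
  intro i
  induction i using WellFoundedLT.induction with
  | ind i ih =>
    have hex : ∃ q, Rq f U i (fun j _ => p j) q := by
      obtain ⟨r, hr1, hr2⟩ := exists_lower (hI i) (fun j _ => (p j).1) (fun j h => (ih j h).1)
        (fun j k _ hk hjk => (ih k hk).2.1 j hjk)
      obtain ⟨q, h1, h2, h3⟩ := step hr1 (countable_old (hI i) (fun j _ => p j)) (hU i)
      obtain ⟨x, hx⟩ := pair h1 (f i)
      exact ⟨(q, x), h1, fun j h => h2.trans (hr2 j h), h3, hx⟩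
    rw [hp i]
    simp only [st]
    rw [dif_pos hex]
    exact hex.choose_spec

variable {f : I → ℕ → ℕ} {U : I → ℕ → ℕ → Set Pt} {d : I → Dat}

def XX (d : I → Dat) : Set Pt := {y | ∃ i, y ∈ pts (d i)}

theorem tw_le (hd : ∀ i, Rq f U i (fun j _ => d j) (d i)) {i j : I} (h : i ≤ j) :
    CLe (d j).1 (d i).1 := by
  rcases eq_or_lt_of_le h with h1 | h1
  · subst h1
    exact CLe.refl _
  · exact (hd j).2.1 i h1

theorem pts_prop (hd : ∀ i, Rq f U i (fun j _ => d j) (d i)) {i : I} {y : Pt}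
    (hy : y ∈ pts (d i)) : InY y ∧ Below y (d i).1 ∧
      ∀ n, {a | col a = n ∧ y a ≠ (d i).1.r a}.Finite := by
  rcases hy with rfl | ⟨b, rfl⟩
  · refine ⟨fun a => ?_, ⟨0, fun _ => [], fun a _ => by simp, fun a b _ _ _ => ⟨rfl, fun _ => rfl⟩⟩,
      fun n => by simp⟩
    have := (hd i).1.2 a
    omega
  · exact (hd i).2.2.2.1 b

theorem pre_fin (hd : ∀ i, Rq f U i (fun j _ => d j) (d i)) {i j : I} (h : i ≤ j) {x y : Pt}
    (hx : x ∈ pts (d i)) (hy : y ∈ pts (d j)) (n : ℕ) :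
    {a | col a = n ∧ ¬ x a <+: y a}.Finite := by
  obtain ⟨N, w, h1, -⟩ := tw_le hd h
  refine ((((pts_prop hd hx).2.2 n).union ((pts_prop hd hy).2.2 n)).union
    (finite_lt_nat N)).subset ?_
  rintro a ⟨h2, h3⟩
  by_contra h4
  simp only [mem_union, mem_ofPred_eq, not_or, not_and, not_not, not_lt] at h4
  apply h3
  rw [h4.1.1 h2, h4.1.2 h2, (h1 a h4.2).1]
  exact List.prefix_append _ _

theorem col_infinite (n : ℕ) : {a | col a = n}.Infinite := by
  refine (infinite_range_of_injective (f := fun k => Nat.pair n k)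
    fun a b h => (Nat.pair_eq_pair.1 h).2).mono ?_
  rintro _ ⟨k, rfl⟩
  simp [col]

/-- the tau-covers -/
def TC {Y : Type} (dec : Y → Pt) (n : ℕ) : Set (Set Y) :=
  {u | ∃ a t, col a = n ∧ t.length ≤ a + 1 ∧ u = {y | dec y a <+: t}}

theorem not_sfin [Nonempty I] (hd : ∀ i, Rq f U i (fun j _ => d j) (d i))
    (hf : ∀ g : ℕ → ℕ, ∃ i, f i = g) {Y : Type} [TopologicalSpace Y] {dec : Y → Pt}
    (hr : range dec = XX d) (ho : ∀ a s, IsOpen {y | dec y a = s}) :
    ¬ Sfin (TauOf (OpenFam Y)) (OmegaOf (OpenFam Y)) := by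
  classical
  intro h
  have hidx : ∀ y, ∃ i, dec y ∈ pts (d i) := fun y => hr.subset (mem_range_self y)
  choose ι hι using hidx
  have hpair : ∀ g : ℕ → ℕ, ∃ y y' : Y, ∀ a, a ≤ g (col a) → ∀ t,
      ¬ (dec y a <+: t ∧ dec y' a <+: t) := by
    intro g
    obtain ⟨i, rfl⟩ := hf g
    obtain ⟨y, hy⟩ := hr.symm.subset (⟨i, Or.inr ⟨false, rfl⟩⟩ : (d i).2 false ∈ XX d)
    obtain ⟨y', hy'⟩ := hr.symm.subset (⟨i, Or.inr ⟨true, rfl⟩⟩ : (d i).2 true ∈ XX d)
    refine ⟨y, y', ?_⟩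
    rw [hy, hy']
    exact (hd i).2.2.2.2
  have hne : ∀ n, univ ∉ TC dec n := by
    rintro n ⟨a, t, -, -, h3⟩
    obtain ⟨y, y', hy⟩ := hpair fun _ => a
    exact hy a le_rfl t ⟨h3.subset (mem_univ y), h3.subset (mem_univ y')⟩
  have hω : ∀ n (F : Set Y), F.Finite → ∃ u ∈ TC dec n, F ⊆ u := by
    intro n F hF
    obtain ⟨j, hj⟩ := (hF.image ι).bddAbove
    have h1 : (⋃ y ∈ F, {a | col a = n ∧ ¬ dec y a <+: (d j).1.r a}).Finite :=
      hF.biUnion fun y hy => pre_fin hd (hj ⟨y, hy, rfl⟩) (hι y) (Or.inl rfl) n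
    obtain ⟨a, ha, ha'⟩ := (col_infinite n).exists_notMem_finite h1
    refine ⟨_, ⟨a, (d j).1.r a, ha, (pts_prop hd (Or.inl rfl)).1 a, rfl⟩, fun y hy => ?_⟩
    by_contra h2
    exact ha' (mem_biUnion hy ⟨ha, h2⟩)
  have hle : ∀ n x y, ι x ≤ ι y → Pool.Agent.Helper185.Sel.Le (TC dec n) y x := by
    intro n x y hxy
    have h1 := pre_fin hd hxy (hι x) (hι y) n
    refine (h1.biUnion fun a _ => (List.finite_length_le Bool (a + 1)).image
      (fun t => {y | dec y a <+: t})).subset ?_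
    rintro _ ⟨⟨a, t, h2, h3, rfl⟩, h4, h5⟩
    exact mem_biUnion (x := a) ⟨h2, fun h6 => h5 (h6.trans h4)⟩ ⟨t, h3, rfl⟩
  have hT : ∀ n, TC dec n ∈ TauOf (OpenFam Y) := by
    intro n
    refine tau_of_lin ?_ (hne n) ⟨fun x => ?_, fun x y => ?_⟩
    · rintro _ ⟨a, t, -, -, rfl⟩
      have : {y | dec y a <+: t} = ⋃ s ∈ {s | s <+: t}, {y | dec y a = s} := by
        ext y
        simp
      rw [this]
      exact isOpen_biUnion fun s _ => ho a s
    · refine (omega_inf (hne n) (hω n) (finite_singleton x)).mono ?_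
      intro u hu
      exact ⟨hu.1, hu.2 rfl⟩
    · rcases le_total (ι x) (ι y) with h1 | h1
      · exact Or.inr (hle n x y h1)
      · exact Or.inl (hle n y x h1)
  obtain ⟨F, hF, hFω⟩ := h (TC dec) hT
  have hg : ∀ n, ∃ M, ∀ u ∈ F n, ∃ a t, a ≤ M ∧ col a = n ∧ u = {y | dec y a <+: t} := by
    intro n
    have h1 : ∀ u : Set Y, ∃ a, u ∈ F n → ∃ t, col a = n ∧ u = {y | dec y a <+: t} := by
      intro u
      by_cases hu : u ∈ F n
      · obtain ⟨a, t, h2, -, h3⟩ := (hF n).2 hu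
        exact ⟨a, fun _ => ⟨t, h2, h3⟩⟩
      · exact ⟨0, fun h => absurd h hu⟩
    choose A hA using h1
    obtain ⟨M, hM⟩ := ((hF n).1.image A).bddAbove
    refine ⟨M, fun u hu => ?_⟩
    obtain ⟨t, ht⟩ := hA u hu
    exact ⟨A u, t, hM ⟨u, hu, rfl⟩, ht⟩
  choose g hg using hg
  obtain ⟨y, y', hy⟩ := hpair g
  obtain ⟨u, hu, hsub⟩ := hFω.2.2 {y, y'} (toFinite _)
  obtain ⟨n, hn⟩ := mem_iUnion.1 hu
  obtain ⟨a, t, h1, h2, rfl⟩ := hg n u hn
  exact hy a (h2 ▸ h1) t ⟨hsub (Or.inl rfl), hsub (Or.inr rfl)⟩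

theorem good (hd : ∀ i, Rq f U i (fun j _ => d j) (d i)) {Y : Type} [TopologicalSpace Y]
    {dec : Y → Pt} (hr : range dec = XX d)
    (hall : ∀ v : ℕ → ℕ → Set Y, (∀ n k, IsOpen (v n k)) →
      ∃ i, ∀ n k y, y ∈ v n k ↔ dec y ∈ U i n k) : Good (OpenFam Y) univ := by
  intro W hW
  have hemb : ∀ n, ∃ u : ℕ → Set Y, Function.Injective u ∧ ∀ k, u k ∈ W n := fun n =>
    exists_sdr (fun _ => W n) fun _ => (hW n).2.2.1
  choose v hv1 hv2 using hemb
  obtain ⟨i, hi⟩ := hall v fun n k => (hW n).1 _ (hv2 n k)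
  rcases (hd i).2.2.1 with ⟨x, hx, n, hn⟩ | ⟨k, hk⟩
  · exfalso
    have h1 : x ∈ XX d := by
      rcases hx with ⟨j, _, hj⟩ | rfl
      · exact ⟨j, hj⟩
      · exact ⟨i, Or.inl rfl⟩
    obtain ⟨y, rfl⟩ := hr.symm.subset h1
    apply hn
    refine (((hW n).2.2.2 y).preimage (hv1 n).injOn).subset ?_
    intro k hk
    exact ⟨hv2 n k, fun h => hk ((hi n k y).1 h)⟩
  · refine ⟨fun n => v n (k n), fun n => hv2 _ _, fun y _ => ?_⟩
    obtain ⟨j, hj⟩ : dec y ∈ XX d := hr.subset (mem_range_self y)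
    refine (hk (dec y) ?_).subset fun n hn h => hn ((hi n _ y).2 h)
    rcases lt_or_ge j i with h | h
    · exact Or.inl ⟨j, h, hj⟩
    · exact Or.inr ⟨(pts_prop hd hj).1, CLe.trans (pts_prop hd hj).2.1 (tw_le hd h)⟩

end Rec

def code (y : Pt) : Set ℕ := {n | Encodable.encode (y (Nat.unpair n).1) = (Nat.unpair n).2}

theorem mem_code (y : Pt) (a : ℕ) (s : List Bool) :
    Nat.pair a (Encodable.encode s) ∈ code y ↔ y a = s := by
  simp [code]

theorem code_injective : Function.Injective code := by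
  intro x y h
  funext a
  rw [← mem_code, h, mem_code]

theorem opP_code {O : Set (Set ℕ)} (hO : Op O) : OpP {y | code y ∈ O} := by
  intro y hy
  obtain ⟨N, hN⟩ := hO _ hy
  refine ⟨N, fun y' hy' => hN _ fun n hn => ?_⟩
  simp only [code, mem_ofPred_eq]
  rw [hy' _ ((Nat.unpair_left_le n).trans_lt hn)]

theorem main (hCH : Cardinal.aleph 1 = Cardinal.continuum.{0}) :
    ∃ X : Set ℝ, X.Infinite ∧ S1 (GammaOf (OpenFam X)) (GammaOf (OpenFam X)) ∧
      ¬ Sfin (TauOf (OpenFam X)) (OmegaOf (OpenFam X)) := by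
  classical
  obtain ⟨I, _, _, hI, B, O, hO, hBO⟩ := Pool.Agent.Helper185.Blk.exists_enumeration hCH
  have hU : ∀ n : ℕ, Op ((fun _ => univ : ℕ → Set (Set ℕ)) n) :=
    fun n A _ => ⟨0, fun _ _ => trivial⟩
  have : Nonempty I := by
    obtain ⟨i, -⟩ := hBO ∅ (fun _ => univ) hU
    exact ⟨i⟩
  obtain ⟨d, hd⟩ := exists_tw hI (fun i n => sInf {m | Nat.pair n m ∈ B i})
    (fun i n k => {y | code y ∈ O i (Nat.pair n k)}) (fun i n k => opP_code (hO i _))
  obtain ⟨g, hg⟩ := exists_embedding_Z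
  let X : Set ℝ := (fun y => g (ch (code y))) '' XX d
  have hdec : ∀ x : X, ∃ y ∈ XX d, g (ch (code y)) = x := fun x => x.2
  choose dec hdec1 hdec2 using hdec
  have hinj : Function.Injective (fun y => g (ch (code y))) := by
    intro x y h
    have h1 := congrArg supp (hg.injective h)
    rw [supp_ch, supp_ch] at h1
    exact code_injective h1
  have hr : range dec = XX d := by
    apply Subset.antisymm
    · rintro _ ⟨x, rfl⟩
      exact hdec1 x
    · intro y hy
      exact ⟨⟨_, y, hy, rfl⟩, hinj (hdec2 _)⟩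
  have ho : ∀ a s, IsOpen {y | dec y a = s} := by
    intro a s
    have h1 : IsOpen ((fun z : Z => z (Nat.pair a (Encodable.encode s))) ⁻¹' {true}) :=
      (isOpen_discrete _).preimage (continuous_apply _)
    obtain ⟨o, ho1, ho2⟩ := hg.isInducing.isOpen_iff.1 h1
    have h2 : {y | dec y a = s} = Subtype.val ⁻¹' o := by
      ext x
      rw [mem_preimage, ← hdec2 x, ← mem_preimage, ho2, mem_ofPred_eq, ← mem_code]
      simp [ch]
    rw [h2]
    exact ho1.preimage continuous_subtype_val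
  have hns := not_sfin hd (fun G => by
    obtain ⟨i, hi, -⟩ := hBO (range fun n => Nat.pair n (G n)) (fun _ => univ) hU
    refine ⟨i, funext fun n => ?_⟩
    have h1 : {m | Nat.pair n m ∈ B i} = {G n} := by
      ext m
      rw [hi]
      constructor
      · rintro ⟨k, hk⟩
        obtain ⟨rfl, rfl⟩ := Nat.pair_eq_pair.1 hk
        rfl
      · rintro rfl
        exact ⟨n, rfl⟩
    simp only [h1, csInf_singleton]) hr ho
  refine ⟨X, ?_, s1_gamma_gamma_of_good (adm_open _) (good hd hr fun v hv => ?_), hns⟩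
  · intro hfin
    have := hfin.to_subtype
    apply hns
    intro W hW
    obtain ⟨i⟩ : Nonempty I := inferInstance
    exact absurd (toFinite _) ((hW 0).2.2.1 ⟨_, (d i).1.r, ⟨i, Or.inl rfl⟩, rfl⟩)
  · choose W hW hWv using fun n k => isOpen_induced_iff.1 (hv n k)
    obtain ⟨i, -, hi⟩ := hBO ∅
      (fun m => {A | ch A ∈ g ⁻¹' W (Nat.unpair m).1 (Nat.unpair m).2})
      (fun m => op_of_open ((hW _ _).preimage hg.continuous))
    refine ⟨i, fun n k y => ?_⟩
    rw [hi, ← hWv n k, mem_preimage, ← hdec2 y]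
    simp

end Pool.Agent.H224Z.Sync
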