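import Pool.Agent.H224Z.SfinTau

set_option autoImplicit false

namespace Pool.Agent.H224Z.TauRoth

open Set Pool.Agent.Helper185.Sel Pool.Agent.H224Z.SplitL Pool.Agent.H224Z.SfinTau

variable {X : Type*}

theorem finite_of_le {T S : Set (Set X)} (hST : S ⊆ T) {x y : X} (hxy : Le T x y)
    (hy : {t | t ∈ S ∧ y ∈ t}.Finite) : {t | t ∈ S ∧ x ∈ t}.Finite := by
  refine (hy.union hxy).subset ?_
  rintro t ⟨ht, hx⟩
  by_cases h : y ∈ t
  · exact Or.inl ⟨ht, h⟩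
  · exact Or.inr ⟨hST ht, hx, h⟩

theorem fin_pre {α β : Type*} {f : α → β} {A : Set α}
    (hf : ∀ b, {a | a ∈ A ∧ f a = b}.Finite) {B : Set β} (hB : B.Finite) :
    {a | a ∈ A ∧ f a ∈ B}.Finite := by
  refine (hB.biUnion fun b _ => hf b).subset ?_
  rintro a ⟨h1, h2⟩
  exact mem_biUnion h2 ⟨h1, rfl⟩

theorem inf_image {α β : Type*} {f : α → β} {A : Set α}
    (hf : ∀ b, {a | a ∈ A ∧ f a = b}.Finite) {C : Set α} (hCA : C ⊆ A) (hC : C.Infinite) :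
    (f '' C).Infinite := by
  intro hfin
  apply hC
  refine (fin_pre hf hfin).subset ?_
  intro a ha
  exact ⟨hCA ha, a, ha, rfl⟩

/-- the combinatorial core -/
theorem core {T T' : Set (Set X)} (hT : Lin T) (hT' : Lin T') (lam : Set X → ℕ)
    (rho : Set X → ℕ) (hrho : InjOn rho T)
    (hcap : ∀ S ⊆ T, ∀ μ : Set X → ℕ, InjOn μ S → (∀ t ∈ S, μ t ≤ lam t) →
      ∃ y, {t | t ∈ S ∧ y ∈ t}.Finite)
    (hinf : ∀ A ⊆ T, A.Infinite → ∃ S ⊆ A, S.Infinite ∧ ∃ y, {t | t ∈ S ∧ y ∈ t}.Finite)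
    (P : Set X) (hP : ∀ z, ∃ y ∈ P, Le T y z) (hP' : ∀ z, ∃ y, y ∉ P ∧ Le T y z)
    (c : Set X → Set X) (hc : ∀ t ∈ T, t ⊆ c t)
    (hc' : ∀ x, {t | t ∈ T ∧ x ∈ c t ∧ x ∉ t}.Finite)
    (z z' : Set X → Set X) (hz : ∀ w ∈ T', z w ∈ T) (hz' : ∀ w ∈ T', z' w ∈ T)
    (hw : ∀ w ∈ T', w = (z w ∩ z' w) ∪ (P \ c (z w)))
    (hr : ∀ w ∈ T', rho (z w) ≤ lam (z' w))
    (hzf : ∀ ζ, {w | w ∈ T' ∧ z w = ζ}.Finite) (hz'f : ∀ ζ, {w | w ∈ T' ∧ z' w = ζ}.Finite)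
    (x0 : X) : False := by
  classical
  have hlow : ∀ a b : X, ∃ m, Le T m a ∧ Le T m b := by
    intro a b
    rcases hT.lin a b with h | h
    · exact ⟨a, Le.refl _ _, h⟩
    · exact ⟨b, h, Le.refl _ _⟩
  have hout : ∀ y, y ∉ P → ∀ w ∈ T', y ∈ w → y ∈ z w := by
    intro y hy w hwT hyw
    rw [hw w hwT] at hyw
    rcases hyw with h | h
    · exact h.1
    · exact absurd h.1 hy
  -- transfer of largeness from a low point outside `P`
  have htr : ∀ (I : Set (Set X)), I ⊆ T' → ∀ x y, y ∉ P → Le T y x →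
      {w | w ∈ I ∧ y ∈ w}.Infinite → {w | w ∈ I ∧ x ∈ z w}.Infinite := by
    intro I hI x y hy hyx hinfI hfin
    apply hinfI
    refine (hfin.union (fin_pre hzf hyx)).subset ?_
    rintro w ⟨h1, h2⟩
    by_cases h : x ∈ z w
    · exact Or.inl ⟨h1, h⟩
    · exact Or.inr ⟨hI h1, hz w (hI h1), hout y hy w (hI h1) h2, h⟩
  have claimA : ∃ I ⊆ T', ∃ xs : X, (∀ x ∈ P, Le T x xs → {w | w ∈ I ∧ x ∉ w}.Finite) ∧
      ∀ x, {w | w ∈ I ∧ x ∈ z w}.Infinite := by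
    by_cases h1 : ∀ x ∈ P, {w | w ∈ T' ∧ x ∉ w}.Finite
    · refine ⟨T', Subset.rfl, x0, fun x hx _ => h1 x hx, fun x => ?_⟩
      obtain ⟨y, hy, hyx⟩ := hP' x
      exact htr T' Subset.rfl x y hy hyx (hT'.large y)
    · push Not at h1
      obtain ⟨x1, -, hD⟩ := h1
      have hDz := inf_image hzf (fun w hw => hw.1) hD
      obtain ⟨S, hS1, hS2, xs, hxs⟩ := hinf _ (by
        rintro _ ⟨w, hw, rfl⟩
        exact hz w hw.1) hDz
      have hST : S ⊆ T := by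
        intro s hs
        obtain ⟨w, hw, rfl⟩ := hS1 hs
        exact hz w hw.1
      have hIz := inf_image hzf (fun w hw => hw.1) (hT'.large x1)
      obtain ⟨S', hS1', hS2', ys, hys⟩ := hinf _ (by
        rintro _ ⟨w, hw, rfl⟩
        exact hz w hw.1) hIz
      have hST' : S' ⊆ T := by
        intro s hs
        obtain ⟨w, hw, rfl⟩ := hS1' hs
        exact hz w hw.1
      refine ⟨{w | w ∈ T' ∧ x1 ∈ w}, fun w hw => hw.1, xs, fun x hx hxs' => ?_, fun x => ?_⟩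
      · have h2 := finite_of_le hST hxs' hxs
        have h3 : ¬ Le T' x x1 := by
          intro h
          apply hS2
          refine ((h2.union (hc' x)).union (h.image z)).subset ?_
          intro s hs
          by_cases h4 : x ∈ s
          · exact Or.inl (Or.inl ⟨hs, h4⟩)
          by_cases h5 : x ∈ c s
          · exact Or.inl (Or.inr ⟨hST hs, h5, h4⟩)
          obtain ⟨w, hwD, rfl⟩ := hS1 hs
          refine Or.inr ⟨w, ⟨hwD.1, ?_, hwD.2⟩, rfl⟩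
          rw [hw w hwD.1]
          exact Or.inr ⟨hx, h5⟩
        have h4 : Le T' x1 x := (hT'.lin x1 x).resolve_right h3
        exact h4.subset fun w hw => ⟨hw.1.1, hw.1.2, hw.2⟩
      · obtain ⟨m, hm1, hm2⟩ := hlow x ys
        obtain ⟨y, hy, hym⟩ := hP' m
        have h2 := finite_of_le hST' (hym.trans hm2) hys
        have h3 : ¬ Le T' x1 y := by
          intro h
          apply hS2'
          refine (h2.union (h.image z)).subset ?_
          intro s hs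
          by_cases h4 : y ∈ s
          · exact Or.inl ⟨hs, h4⟩
          obtain ⟨w, hwD, rfl⟩ := hS1' hs
          exact Or.inr ⟨w, ⟨hwD.1, hwD.2, fun h5 => h4 (hout y hy w hwD.1 h5)⟩, rfl⟩
        have h4 : Le T' y x1 := (hT'.lin y x1).resolve_right h3
        refine htr _ (fun w hw => hw.1) x y hy (hym.trans hm1) ?_
        intro h5
        apply hT'.large y
        refine (h5.union h4).subset ?_
        rintro w ⟨h6, h7⟩
        by_cases h8 : x1 ∈ w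
        · exact Or.inl ⟨⟨h6, h8⟩, h7⟩
        · exact Or.inr ⟨h6, h7, h8⟩
  obtain ⟨I, hI, xs, hA1, hA2⟩ := claimA
  have hwof : ∀ ζ : Set X, ∃ w : Set X, ζ ∈ z '' I → w ∈ I ∧ z w = ζ := by
    intro ζ
    by_cases h : ζ ∈ z '' I
    · obtain ⟨w, h1, h2⟩ := h
      exact ⟨w, fun _ => ⟨h1, h2⟩⟩
    · exact ⟨∅, fun h' => absurd h' h⟩
  choose wof hwof using hwof
  let S : Set (Set X) := (fun ζ => z' (wof ζ)) '' (z '' I)
  have hzof : ∀ s : Set X, ∃ ζ : Set X, s ∈ S → ζ ∈ z '' I ∧ z' (wof ζ) = s := by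
    intro s
    by_cases h : s ∈ S
    · obtain ⟨ζ, h1, h2⟩ := h
      exact ⟨ζ, fun _ => ⟨h1, h2⟩⟩
    · exact ⟨∅, fun h' => absurd h' h⟩
  choose zof hzof using hzof
  have hZT : z '' I ⊆ T := by
    rintro _ ⟨w, hw, rfl⟩
    exact hz w (hI hw)
  have hST : S ⊆ T := by
    rintro _ ⟨ζ, hζ, rfl⟩
    exact hz' _ (hI (hwof ζ hζ).1)
  obtain ⟨y2, hy2⟩ := hcap S hST (fun s => rho (zof s)) (by
      intro s hs s' hs' h
      have h1 := hrho (hZT (hzof s hs).1) (hZT (hzof s' hs').1) h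
      rw [← (hzof s hs).2, ← (hzof s' hs').2, h1]) (by
      intro s hs
      have h1 := hr _ (hI (hwof _ (hzof s hs).1).1)
      rw [(hwof _ (hzof s hs).1).2, (hzof s hs).2] at h1
      exact h1)
  obtain ⟨m, hm1, hm2⟩ := hlow xs y2
  obtain ⟨x, hx, hxm⟩ := hP m
  have h1 := finite_of_le hST (hxm.trans hm2) hy2
  have h2 := hA1 x hx (hxm.trans hm1)
  have h3 := inf_image hzf (fun w hw => hI hw.1) (hA2 x)
  apply h3
  refine ((h2.image z).union ((fin_pre hz'f h1).image z)).subset ?_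
  rintro _ ⟨w, ⟨hwI, hxz⟩, rfl⟩
  have hζ : z w ∈ z '' I := ⟨w, hwI, rfl⟩
  obtain ⟨h4, h5⟩ := hwof _ hζ
  by_cases h6 : x ∈ wof (z w)
  · refine Or.inr ⟨wof (z w), ⟨hI h4, ⟨z w, hζ, rfl⟩, ?_⟩, h5⟩
    rw [hw _ (hI h4)] at h6
    rcases h6 with h6 | h6
    · exact h6.2
    · rw [h5] at h6
      exact absurd (hc _ (hZT hζ) hxz) h6.2
  · exact Or.inl ⟨wof (z w), ⟨h4, h6⟩, h5⟩

/-- neighbourhoods with small boundary -/
def ThinBase (X : Type*) [TopologicalSpace X] (D : ℕ → Set X) : Prop :=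
  (∀ x, {n | x ∈ D n}.Finite) ∧ ∀ n x (u : Set X), IsOpen u → x ∈ u →
    ∃ v c : Set X, IsOpen v ∧ IsClosed c ∧ x ∈ v ∧ v ⊆ u ∧ v ⊆ c ∧ c \ v ⊆ D n

theorem ThinBase.fin [TopologicalSpace X] {D : ℕ → Set X} (hD : ThinBase X D) (n : ℕ)
    {F : Set X} (hF : F.Finite) {u : Set X} (hu : IsOpen u) (hFu : F ⊆ u) :
    ∃ v c : Set X, IsOpen v ∧ IsClosed c ∧ F ⊆ v ∧ v ⊆ u ∧ v ⊆ c ∧ c \ v ⊆ D n := by
  induction F, hF using Set.Finite.induction_on with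
  | empty => exact ⟨∅, ∅, isOpen_empty, isClosed_empty, Subset.rfl, empty_subset _, Subset.rfl,
      by simp⟩
  | @insert a S _ _ ih =>
    obtain ⟨v, c, h1, h2, h3, h4, h5, h6⟩ := ih ((subset_insert _ _).trans hFu)
    obtain ⟨v', c', g1, g2, g3, g4, g5, g6⟩ := hD.2 n a u hu (hFu (mem_insert _ _))
    refine ⟨v ∪ v', c ∪ c', h1.union g1, h2.union g2, ?_, union_subset h4 g4,
      union_subset_union h5 g5, ?_⟩
    · rintro x (rfl | hx)
      · exact Or.inr g3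
      · exact Or.inl (h3 hx)
    · rintro x ⟨hx | hx, hx'⟩
      · exact h6 ⟨hx, fun h => hx' (Or.inl h)⟩
      · exact g6 ⟨hx, fun h => hx' (Or.inr h)⟩

theorem omega_of {U : Set (Set X)} [TopologicalSpace X] (h1 : ∀ u ∈ U, IsOpen u)
    (h2 : univ ∉ U) (h3 : ∀ F : Set X, F.Finite → ∃ u ∈ U, F ⊆ u) :
    U ∈ OmegaOf (OpenFam X) := by
  refine ⟨h1, ⟨?_, h2⟩, h3⟩
  rw [eq_univ_iff_forall]
  intro x
  obtain ⟨u, hu, hx⟩ := h3 {x} (finite_singleton x)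
  exact ⟨u, hu, hx rfl⟩

theorem s1_of_sfin [TopologicalSpace X] [T2Space X] [SecondCountableTopology X]
    {D : ℕ → Set X} (hD : ThinBase X D)
    (h : Sfin (OmegaOf (OpenFam X)) (TauOf (OpenFam X))) :
    S1 (OmegaOf (OpenFam X)) (OmegaOf (OpenFam X)) := by
  classical
  intro U hU
  by_contra hno
  have hu0 : ∀ n, ∃ u, u ∈ U n := fun n => by
    obtain ⟨u, hu, -⟩ := (hU n).2.2 ∅ finite_empty
    exact ⟨u, hu⟩
  choose u0 hu0 using hu0
  obtain ⟨x0, -⟩ : ∃ x0, x0 ∉ u0 0 :=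
    (ne_univ_iff_exists_notMem _).1 (fun h => (hU 0).2.1.2 (h ▸ hu0 0))
  have hsel : ∀ V : ℕ → Set X, (∀ n, V n ∈ U n) →
      ∃ F : Set X, F.Finite ∧ ∀ n, ¬ F ⊆ V n := by
    intro V hV
    by_contra hc
    push Not at hc
    refine hno ⟨V, hV, omega_of ?_ ?_ ?_⟩
    · rintro _ ⟨n, rfl⟩
      exact (hU n).1 _ (hV n)
    · rintro ⟨n, hn⟩
      exact (hU n).2.1.2 (hn ▸ hV n)
    · intro F hF
      obtain ⟨n, hn⟩ := hc F hF
      exact ⟨_, ⟨n, rfl⟩, hn⟩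
  let V : ℕ → Set (Set X) := fun n => {v | IsOpen v ∧
    (∃ c, IsClosed c ∧ v ⊆ c ∧ c \ v ⊆ D n) ∧ ∀ m ≤ n, ∃ u ∈ U m, v ⊆ u}
  have hV : ∀ n, V n ∈ OmegaOf (OpenFam X) := by
    intro n
    refine omega_of (fun v hv => hv.1) ?_ ?_
    · intro hv
      obtain ⟨u, hu, hvu⟩ := hv.2.2 0 (Nat.zero_le _)
      exact (hU 0).2.1.2 (univ_subset_iff.1 hvu ▸ hu)
    · intro F hF
      choose u hu hFu using fun m => (hU m).2.2 F hF
      have ho : IsOpen (⋂ m ∈ {m | m ≤ n}, u m) :=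
        (finite_le_nat n).isOpen_biInter fun m _ => (hU m).1 _ (hu m)
      obtain ⟨v, c, h1, h2, h3, h4, h5, h6⟩ := hD.fin n hF ho
        (subset_iInter₂ fun m _ => hFu m)
      exact ⟨v, ⟨h1, ⟨c, h2, h5, h6⟩, fun m hm =>
        ⟨u m, hu m, h4.trans (biInter_subset_of_mem (s := {m | m ≤ n}) hm)⟩⟩, h3⟩
  obtain ⟨F, hF, hTτ⟩ := h V hV
  set T := ⋃ n, F n with hTdef
  obtain ⟨hTo, hTc, hT⟩ := tau_iff.1 hTτ
  have hlam : ∀ t : Set X, ∃ n, t ∈ T → t ∈ F n := by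
    intro t
    by_cases ht : t ∈ T
    · obtain ⟨n, hn⟩ := mem_iUnion.1 ht
      exact ⟨n, fun _ => hn⟩
    · exact ⟨0, fun h => absurd h ht⟩
  choose lam hlam using hlam
  have hlamf : ∀ k, {t | t ∈ T ∧ lam t < k}.Finite := by
    intro k
    refine ((finite_lt_nat k).biUnion fun m _ => (hF m).1).subset ?_
    rintro t ⟨h1, h2⟩
    exact mem_biUnion h2 (hlam t h1)
  have hTV : ∀ t ∈ T, t ∈ V (lam t) := fun t ht => (hF _).2 (hlam t ht)
  have hcc : ∀ t : Set X, ∃ c, t ∈ T → IsClosed c ∧ t ⊆ c ∧ c \ t ⊆ D (lam t) := by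
    intro t
    by_cases ht : t ∈ T
    · obtain ⟨c, hc⟩ := (hTV t ht).2.1
      exact ⟨c, fun _ => hc⟩
    · exact ⟨∅, fun h => absurd h ht⟩
  choose c hc using hcc
  have hc' : ∀ x, {t | t ∈ T ∧ x ∈ c t ∧ x ∉ t}.Finite := by
    intro x
    obtain ⟨N, hN⟩ := (hD.1 x).bddAbove
    refine (hlamf (N + 1)).subset ?_
    rintro t ⟨h1, h2, h3⟩
    exact ⟨h1, Nat.lt_succ_of_le (hN ((hc t h1).2.2 ⟨h2, h3⟩))⟩
  have hTcount : T.Countable := countable_iUnion fun n => (hF n).1.countable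
  obtain ⟨rho, hrho⟩ := countable_iff_exists_injOn.1 hTcount
  have hcap : ∀ S ⊆ T, ∀ μ : Set X → ℕ, InjOn μ S → (∀ t ∈ S, μ t ≤ lam t) →
      ∃ y, {t | t ∈ S ∧ y ∈ t}.Finite := by
    intro S hS μ hμ hle
    have hW : ∀ m, ∃ u ∈ U m, ∀ t ∈ S, μ t = m → t ⊆ u := by
      intro m
      by_cases hm : ∃ t ∈ S, μ t = m
      · obtain ⟨t, ht, rfl⟩ := hm
        obtain ⟨u, hu, htu⟩ := (hTV t (hS ht)).2.2 (μ t) (hle t ht)
        refine ⟨u, hu, fun t' ht' h' => ?_⟩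
        rw [hμ ht' ht h']
        exact htu
      · exact ⟨u0 m, hu0 m, fun t ht h' => absurd ⟨t, ht, h'⟩ hm⟩
    choose W hW1 hW2 using hW
    obtain ⟨Q, hQ, hQW⟩ := hsel W hW1
    have hne : Q.Nonempty := by
      rw [nonempty_iff_ne_empty]
      rintro rfl
      exact hQW 0 (empty_subset _)
    obtain ⟨y, -, hy⟩ := hT.exists_min hQ hne
    refine ⟨y, (hQ.biUnion fun p hp => hy p hp).subset ?_⟩
    rintro t ⟨h1, h2⟩
    obtain ⟨p, hp, hpt⟩ := not_subset.1 (fun h3 => hQW (μ t) (h3.trans (hW2 _ t h1 rfl)))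
    exact mem_biUnion hp ⟨hS h1, h2, hpt⟩
  have hinf : ∀ A ⊆ T, A.Infinite → ∃ S ⊆ A, S.Infinite ∧
      ∃ y, {t | t ∈ S ∧ y ∈ t}.Finite := by
    intro A hA hAi
    obtain ⟨g, hg, hgA⟩ := exists_sdr (fun k => {t | t ∈ A ∧ k ≤ lam t}) (by
      intro k hfin
      apply hAi
      refine (hfin.union (hlamf k)).subset ?_
      intro t ht
      by_cases h1 : k ≤ lam t
      · exact Or.inl ⟨ht, h1⟩
      · exact Or.inr ⟨hA ht, not_le.1 h1⟩)
    have h1 : range g ⊆ A := by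
      rintro _ ⟨k, rfl⟩
      exact (hgA k).1
    refine ⟨range g, h1, infinite_range_of_injective hg,
      hcap _ (h1.trans hA) (Function.invFun g) ?_ ?_⟩
    · rintro _ ⟨a, rfl⟩ _ ⟨b, rfl⟩ hab
      rw [Function.leftInverse_invFun hg a, Function.leftInverse_invFun hg b] at hab
      rw [hab]
    · rintro _ ⟨a, rfl⟩
      rw [Function.leftInverse_invFun hg a]
      exact (hgA a).2
  obtain ⟨P, Q, hPo, -, hPQ, hP, hQ⟩ := exists_disjoint_open_of_sigmaIdeal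
    (fun B : Set X => ∃ z, ∀ y ∈ B, ¬ Le T y z)
    (fun A B ⟨z, hz⟩ hAB => ⟨z, fun y hy => hz y (hAB hy)⟩)
    (by
      intro p
      obtain ⟨S, hS1, hS2, y, hy⟩ := hinf _ (fun t ht => ht.1) (hT.large p)
      refine ⟨y, ?_⟩
      rintro _ rfl hle
      apply hS2
      refine (finite_of_le (fun t ht => (hS1 ht).1) hle hy).subset ?_
      intro t ht
      exact ⟨ht, (hS1 ht).2⟩)
    (by
      intro B hB
      choose z hz using hB
      obtain ⟨W, hW1, hW2, hW3⟩ := hT.exists_pseudo z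
      obtain ⟨S, hS1, hS2, y, hy⟩ := hinf W hW1 hW2
      refine ⟨y, fun b hb hle => ?_⟩
      obtain ⟨i, hi⟩ := mem_iUnion.1 hb
      have h1 : Le T (z i) y := ((hT.lin (z i) b).resolve_right (hz i b hi)).trans hle
      apply hS2
      refine ((finite_of_le (hS1.trans hW1) h1 hy).union (hW3 i)).subset ?_
      intro t ht
      by_cases h2 : z i ∈ t
      · exact Or.inl ⟨ht, h2⟩
      · exact Or.inr ⟨hS1 ht, h2⟩)
    ⟨x0, fun y hy => absurd hy (notMem_empty y)⟩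
    (fun ⟨z, hz⟩ => hz z (mem_univ z) (Le.refl _ _))
  push Not at hP hQ
  have hP' : ∀ z, ∃ y, y ∉ P ∧ Le T y z := by
    intro z
    obtain ⟨y, hy, hyz⟩ := hQ z
    exact ⟨y, fun h => disjoint_left.1 hPQ h hy, hyz⟩
  have hbad : {t | t ∈ T ∧ Pᶜ ⊆ t}.Finite := by
    by_contra hb
    obtain ⟨S, hS1, hS2, y, hy⟩ := hinf _ (fun t ht => ht.1) hb
    obtain ⟨y', hy', hle⟩ := hP' y
    apply hS2
    refine (finite_of_le (fun t ht => (hS1 ht).1) hle hy).subset ?_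
    intro t ht
    exact ⟨ht, (hS1 ht).2 hy'⟩
  have : Nonempty X := ⟨x0⟩
  have hTω := tau_sub_omega hTτ
  have hbig : ∀ G : Set X, G.Finite → {t | t ∈ T ∧ G ⊆ t}.Infinite := fun G hG =>
    omega_inf hTc.2 hTω.2.2 hG
  let W : ℕ → Set (Set X) := fun n => {w | ∃ a ∈ T, ∃ b ∈ T, ¬ Pᶜ ⊆ a ∧ n ≤ rho a ∧
    rho a ≤ lam b ∧ w = (a ∩ b) ∪ (P \ c a)}
  have hW : ∀ n, W n ∈ OmegaOf (OpenFam X) := by
    intro n
    refine omega_of ?_ ?_ ?_
    · rintro _ ⟨a, ha, b, hb, -, -, -, rfl⟩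
      exact ((hTo a ha).inter (hTo b hb)).union (hPo.sdiff (hc a ha).1)
    · rintro ⟨a, ha, b, hb, h1, -, -, h2⟩
      obtain ⟨y, hy1, hy2⟩ := not_subset.1 h1
      have h3 : y ∈ (a ∩ b) ∪ (P \ c a) := h2 ▸ mem_univ y
      rcases h3 with h3 | h3
      · exact hy2 h3.1
      · exact hy1 h3.1
    · intro G hG
      have h1 := ((hbig G hG).sdiff hbad).image (f := rho) (hrho.mono fun t ht => ht.1.1)
      obtain ⟨_, ⟨a, ha, rfl⟩, hlt⟩ := h1.exists_gt n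
      obtain ⟨b, hb, hb'⟩ := (hbig G hG).exists_notMem_finite (hlamf (rho a))
      refine ⟨_, ⟨a, ha.1.1, b, hb.1, fun h => ha.2 ⟨ha.1.1, h⟩, hlt.le,
        not_lt.1 fun h => hb' ⟨hb.1, h⟩, rfl⟩, fun x hx => Or.inl ⟨ha.1.2 hx, hb.2 hx⟩⟩
  obtain ⟨G, hG, hT'τ⟩ := h W hW
  have hT' := (tau_iff.1 hT'τ).2.2
  have hch : ∀ w : Set X, ∃ (n : ℕ) (a b : Set X), w ∈ ⋃ n, G n → w ∈ G n ∧ a ∈ T ∧ b ∈ T ∧
      n ≤ rho a ∧ rho a ≤ lam b ∧ w = (a ∩ b) ∪ (P \ c a) := by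
    intro w
    by_cases hw : w ∈ ⋃ n, G n
    · obtain ⟨n, hn⟩ := mem_iUnion.1 hw
      obtain ⟨a, ha, b, hb, -, h2, h3, h4⟩ := (hG n).2 hn
      exact ⟨n, a, b, fun _ => ⟨hn, ha, hb, h2, h3, h4⟩⟩
    · exact ⟨0, ∅, ∅, fun h => absurd h hw⟩
  choose nn z z' hch using hch
  have hGf : ∀ k, {w | w ∈ ⋃ n, G n ∧ nn w ≤ k}.Finite := by
    intro k
    refine ((finite_le_nat k).biUnion fun m _ => (hG m).1).subset ?_
    rintro t ⟨h1, h2⟩
    exact mem_biUnion h2 (hch t h1).1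
  refine core hT hT' lam rho hrho hcap hinf P hP hP' c (fun t ht => (hc t ht).2.1) hc' z z'
    (fun w hw => (hch w hw).2.1) (fun w hw => (hch w hw).2.2.1)
    (fun w hw => (hch w hw).2.2.2.2.2) (fun w hw => (hch w hw).2.2.2.2.1) ?_ ?_ x0
  · intro ζ
    refine (hGf (rho ζ)).subset ?_
    rintro w ⟨h1, rfl⟩
    exact ⟨h1, (hch w h1).2.2.2.1⟩
  · intro ζ
    refine (hGf (lam ζ)).subset ?_
    rintro w ⟨h1, rfl⟩
    exact ⟨h1, (hch w h1).2.2.2.1.trans (hch w h1).2.2.2.2.1⟩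

theorem thinBase_real (X : Set ℝ) :
    ThinBase X (fun n => {x | ∃ q : ℚ, (x : ℝ) = q + n * Real.sqrt 2}) := by
  refine ⟨fun x => Set.Subsingleton.finite ?_, ?_⟩
  · rintro n ⟨q, hq⟩ m ⟨q', hq'⟩
    by_contra hnm
    have h1 : ((n : ℚ) - m) ≠ 0 := sub_ne_zero.2 (by exact_mod_cast hnm)
    apply irrational_sqrt_two
    refine ⟨(q' - q) / ((n : ℚ) - m), ?_⟩
    have h2 : ((n : ℝ) - m) ≠ 0 := by exact_mod_cast h1
    push_cast
    rw [div_eq_iff h2]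
    linarith
  · intro n x u hu hx
    obtain ⟨o, ho, rfl⟩ := isOpen_induced_iff.1 hu
    obtain ⟨ε, hε, hb⟩ := Metric.isOpen_iff.1 ho x hx
    obtain ⟨a, ha1, ha2⟩ := exists_rat_btwn
      (show (x : ℝ) - ε - n * Real.sqrt 2 < x - n * Real.sqrt 2 by linarith)
    obtain ⟨b, hb1, hb2⟩ := exists_rat_btwn
      (show (x : ℝ) - n * Real.sqrt 2 < x + ε - n * Real.sqrt 2 by linarith)
    refine ⟨Subtype.val ⁻¹' Ioo (a + n * Real.sqrt 2) (b + n * Real.sqrt 2),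
      Subtype.val ⁻¹' Icc (a + n * Real.sqrt 2) (b + n * Real.sqrt 2),
      isOpen_Ioo.preimage continuous_subtype_val, isClosed_Icc.preimage continuous_subtype_val,
      ⟨by linarith, by linarith⟩, ?_, preimage_mono Ioo_subset_Icc_self, ?_⟩
    · intro y hy
      apply hb
      rw [Metric.mem_ball, Real.dist_eq, abs_lt]
      obtain ⟨h1, h2⟩ := hy
      constructor <;> linarith
    · rintro y ⟨⟨h1, h2⟩, h3⟩
      rcases h1.eq_or_lt with h4 | h4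
      · exact ⟨a, h4.symm⟩
      rcases h2.eq_or_lt with h5 | h5
      · exact ⟨b, h5⟩
      exact absurd ⟨h4, h5⟩ h3

/-- `S₁(Ω, Ω)` implies `S₁(O, O)`. -/
theorem cov_of_omega [TopologicalSpace X] [Infinite X]
    (h : S1 (OmegaOf (OpenFam X)) (OmegaOf (OpenFam X))) :
    S1 (CovOf (OpenFam X)) (CovOf (OpenFam X)) := by
  classical
  intro U hU
  have hcov : ∀ n x, ∃ u ∈ U n, x ∈ u := by
    intro n x
    have : x ∈ ⋃₀ U n := (hU n).2.1 ▸ mem_univ x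
    exact this
  obtain ⟨x0⟩ : Nonempty X := inferInstance
  have key : ∃ V : ℕ → ℕ → Set X, (∀ k i, V k i ∈ U (Nat.pair k i)) ∧
      ∀ x, ∃ k i, x ∈ V k i := by
    let W : ℕ → Set (Set X) := fun k => {w | ∃ (m : ℕ) (v : ℕ → Set X),
      (∀ i, v i ∈ U (Nat.pair k i)) ∧ w = ⋃ i ∈ {i | i < m}, v i}
    have hWF : ∀ k (F : Set X), F.Finite → ∃ w ∈ W k, F ⊆ w := by
      intro k F hF
      obtain ⟨m, f, hf⟩ : ∃ (m : ℕ) (f : ℕ → X), F ⊆ f '' {i | i < m} := by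
        obtain ⟨m, f, hf⟩ := hF.fin_param
        refine ⟨m, fun i => if h : i < m then f ⟨i, h⟩ else x0, ?_⟩
        rw [← hf.2]
        rintro _ ⟨i, rfl⟩
        exact ⟨i, i.2, by simp⟩
      choose v hv hxv using fun i => hcov (Nat.pair k i) (f i)
      refine ⟨_, ⟨m, v, hv, rfl⟩, hf.trans ?_⟩
      rintro _ ⟨i, hi, rfl⟩
      exact mem_biUnion hi (hxv i)
    by_cases h1 : ∃ k, univ ∈ W k
    · obtain ⟨k, m, v, hv, hw⟩ := h1
      choose v0 hv0 _ using fun n => hcov n x0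
      refine ⟨fun j i => if j = k then v i else v0 (Nat.pair j i), fun j i => ?_, fun x => ?_⟩
      · by_cases hj : j = k
        · subst hj
          simpa using hv i
        · simpa [hj] using hv0 _
      · have : x ∈ ⋃ i ∈ {i | i < m}, v i := hw ▸ mem_univ x
        obtain ⟨i, -, hi⟩ := mem_iUnion₂.1 this
        exact ⟨k, i, by simpa using hi⟩
    · push Not at h1
      obtain ⟨S, hS, hSω⟩ := h W fun k => omega_of (by
        rintro _ ⟨m, v, hv, rfl⟩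
        exact isOpen_biUnion fun i _ => (hU _).1 _ (hv i)) (h1 k) (hWF k)
      choose m v hv hSv using hS
      refine ⟨v, hv, fun x => ?_⟩
      obtain ⟨_, ⟨k, rfl⟩, hx⟩ := hSω.2.2 {x} (finite_singleton x)
      have : x ∈ ⋃ i ∈ {i | i < m k}, v k i := hSv k ▸ hx rfl
      obtain ⟨i, -, hi⟩ := mem_iUnion₂.1 this
      exact ⟨k, i, hi⟩
  obtain ⟨V, hV, hx⟩ := key
  have hV' : ∀ n, V (Nat.unpair n).1 (Nat.unpair n).2 ∈ U n := by
    intro n
    have := hV (Nat.unpair n).1 (Nat.unpair n).2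
    rwa [Nat.pair_unpair] at this
  refine ⟨fun n => V (Nat.unpair n).1 (Nat.unpair n).2, hV', ?_, ?_, ?_⟩
  · rintro _ ⟨n, rfl⟩
    exact (hU n).1 _ (hV' n)
  · rw [eq_univ_iff_forall]
    intro x
    obtain ⟨k, i, hi⟩ := hx x
    exact ⟨_, ⟨Nat.pair k i, rfl⟩, by simpa using hi⟩
  · rintro ⟨n, hn⟩
    exact (hU n).2.2 (hn ▸ hV' n)

end Pool.Agent.H224Z.TauRoth
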