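import Pool.Agent.H224Z.TauRoth

set_option autoImplicit false

namespace Pool.Agent.H224Z.TauRoth

open Set Pool.Agent.Helper185.Sel Pool.Agent.H224Z.SfinTau

theorem choose_gamma_of_countable {X : Type*} [TopologicalSpace X] [Countable X] :
    Choose (OmegaOf (OpenFam X)) (GammaOf (OpenFam X)) := by
  intro U hU
  obtain ⟨u0, hu0, -⟩ := hU.2.2 ∅ finite_empty
  obtain ⟨x0, -⟩ : ∃ x0, x0 ∉ u0 :=
    (ne_univ_iff_exists_notMem _).1 (fun h => hU.2.1.2 (h ▸ hu0))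
  have : Nonempty X := ⟨x0⟩
  obtain ⟨e, he⟩ := exists_surjective_nat X
  obtain ⟨g, hg, hgU⟩ := exists_sdr (fun n => {u | u ∈ U ∧ e '' {i | i ≤ n} ⊆ u})
    (fun n => omega_inf hU.2.1.2 hU.2.2 ((finite_le_nat n).image e))
  have h1 : range g ⊆ U := by
    rintro _ ⟨n, rfl⟩
    exact (hgU n).1
  refine ⟨range g, h1, gamma_of_seq (fun u hu => hU.1 u (h1 hu)) (fun h => hU.2.1.2 (h1 h))
    (infinite_range_of_injective hg) fun x => ?_⟩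
  obtain ⟨i, rfl⟩ := he x
  refine ((finite_lt_nat i).image g).subset ?_
  rintro _ ⟨⟨n, rfl⟩, hn⟩
  refine ⟨n, ?_, rfl⟩
  by_contra h
  have h2 : i ≤ n := not_lt.1 h
  exact hn ((hgU n).2 ⟨i, h2, rfl⟩)

theorem smz_of_cov {X : Set ℝ} (h : S1 (CovOf (OpenFam X)) (CovOf (OpenFam X)))
    (ε : ℕ → ℝ) (hε : ∀ n, 0 < ε n) : ∃ a : ℕ → ℝ, X ⊆ ⋃ n, Ioo (a n) (a n + ε n) := by
  by_cases h1 : ∃ n a, X ⊆ Ioo a (a + ε n)
  · obtain ⟨n, a, ha⟩ := h1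
    exact ⟨fun _ => a, ha.trans (subset_iUnion (fun n => Ioo a (a + ε n)) n)⟩
  push Not at h1
  obtain ⟨V, hV, hc⟩ := h (fun n => {u | ∃ a, u = Subtype.val ⁻¹' Ioo a (a + ε n)}) (by
    intro n
    refine ⟨?_, ?_, ?_⟩
    · rintro _ ⟨a, rfl⟩
      exact isOpen_Ioo.preimage continuous_subtype_val
    · rw [eq_univ_iff_forall]
      intro x
      refine ⟨_, ⟨x - ε n / 2, rfl⟩, ?_, ?_⟩
      · linarith [hε n]
      · linarith [hε n]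
    · rintro ⟨a, ha⟩
      apply h1 n a
      intro x hx
      have : (⟨x, hx⟩ : X) ∈ Subtype.val ⁻¹' Ioo a (a + ε n) := ha ▸ mem_univ _
      exact this)
  choose a ha using hV
  refine ⟨a, fun x hx => ?_⟩
  have : (⟨x, hx⟩ : X) ∈ ⋃₀ range V := hc.2.1 ▸ mem_univ _
  obtain ⟨_, ⟨n, rfl⟩, hn⟩ := this
  rw [ha n] at hn
  exact mem_iUnion.2 ⟨n, hn⟩

end Pool.Agent.H224Z.TauRoth
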